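import Pool.Agent.Helper99.SCH.Weight
import Pool.Agent.Helper80.AT.Fn

/-! Products, adjoints and restrictions of Hecke functions, and their norms. -/

open Matrix
open scoped NNReal

namespace Pool.Agent.Helper99.SCH

open Pool.Agent.Helper80.AT

variable {F : Type} [Field F] {X : Places F} {N : ℕ} {Γ : Subgroup (GL (Fin N) F)} {x : X.V}

lemma h_left_inv (h : HeckeFn X Γ x) {k : Γ} (hk : k ∈ X.K Γ x) (g : Γ) : h.h (k * g) = h.h g := by
  have := h.biinv k hk 1 (one_mem _) g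
  rwa [mul_one] at this

lemma h_right_inv (h : HeckeFn X Γ x) {k : Γ} (hk : k ∈ X.K Γ x) (g : Γ) : h.h (g * k) = h.h g := by
  have := h.biinv 1 (one_mem _) k hk g
  rwa [one_mul] at this

lemma h_out (h : HeckeFn X Γ x) (g : Γ) : h.h ((g : Γ ⧸ X.K Γ x)).out = h.h g := by
  obtain ⟨k, hk, e⟩ := out_eq X x g
  rw [e]
  exact h_right_inv h hk g

lemma h_out_inv (h : HeckeFn X Γ x) (g : Γ) : h.h ((g : Γ ⧸ X.K Γ x)).out⁻¹ = h.h g⁻¹ := by
  obtain ⟨k, hk, e⟩ := out_eq X x g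
  rw [e, _root_.mul_inv_rev]
  exact h_left_inv h (inv_mem hk) _

lemma h_out_inv_mul (h : HeckeFn X Γ x) (g g' : Γ) :
    h.h (((g : Γ ⧸ X.K Γ x)).out⁻¹ * g') = h.h (g⁻¹ * g') := by
  obtain ⟨k, hk, e⟩ := out_eq X x g
  rw [e, _root_.mul_inv_rev, mul_assoc]
  exact h_left_inv h (inv_mem hk) _

lemma fin_col (h : HeckeFn X Γ x) (b : Γ ⧸ X.K Γ x) :
    {a : Γ ⧸ X.K Γ x | h.h (a.out⁻¹ * b.out) ≠ 0}.Finite := by
  refine ((h.finR).image (fun c => b.out • c)).subset ?_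
  intro a ha
  refine ⟨b.out⁻¹ • a, ?_, smul_inv_smul _ _⟩
  rw [Set.mem_ofPred_eq, ← h_right h b.out, smul_inv_smul]
  exact ha

lemma fin_row (h : HeckeFn X Γ x) (a : Γ ⧸ X.K Γ x) :
    {b : Γ ⧸ X.K Γ x | h.h (a.out⁻¹ * b.out) ≠ 0}.Finite := by
  refine ((h.finL).image (fun c => a.out • c)).subset ?_
  intro b hb
  refine ⟨a.out⁻¹ • b, ?_, smul_inv_smul _ _⟩
  rw [Set.mem_ofPred_eq, ← h_left h a.out, smul_inv_smul]
  exact hb

/-- The product of two Hecke functions: the sum over the cosets aK of h₁(a) h₂(a⁻¹g). -/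
noncomputable def hconv (h₁ h₂ : HeckeFn X Γ x) : HeckeFn X Γ x where
  h g := ∑ᶠ a : Γ ⧸ X.K Γ x, h₁.h a.out * h₂.h (a.out⁻¹ * g)
  biinv k hk k' hk' g := by
    rw [← finsum_comp_equiv (MulAction.toPerm k)]
    refine finsum_congr fun a => ?_
    rw [MulAction.toPerm_apply]
    induction a using QuotientGroup.induction_on with
    | H a =>
      show h₁.h (((k * a : Γ) : Γ ⧸ X.K Γ x)).out *
        h₂.h ((((k * a : Γ) : Γ ⧸ X.K Γ x)).out⁻¹ * (k * g * k')) = _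
      rw [h_out, h_out, h_out_inv_mul, h_out_inv_mul, h_left_inv h₁ hk]
      have e : (k * a)⁻¹ * (k * g * k') = a⁻¹ * g * k' := by group
      rw [e, h_right_inv h₂ hk']
  finL := by
    refine (h₁.finL.biUnion fun a _ => fin_row h₂ a).subset ?_
    intro b hb
    by_contra hc
    apply hb
    refine (finsum_congr fun a => ?_).trans finsum_zero
    by_contra h0
    apply hc
    simp only [Set.mem_iUnion]
    exact ⟨a, left_ne_zero_of_mul h0, right_ne_zero_of_mul h0⟩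
  finR := by
    refine (h₂.finR.biUnion fun c _ => fin_col h₁ c).subset ?_
    intro b hb
    by_contra hc
    apply hb
    refine (finsum_congr fun a => ?_).trans finsum_zero
    by_contra h0
    apply hc
    simp only [Set.mem_iUnion]
    refine ⟨((b.out * a.out : Γ) : Γ ⧸ X.K Γ x), ?_, ?_⟩
    · show h₂.h (((b.out * a.out : Γ) : Γ ⧸ X.K Γ x)).out⁻¹ ≠ 0
      rw [h_out_inv, _root_.mul_inv_rev]
      exact right_ne_zero_of_mul h0
    · show h₁.h (b.out⁻¹ * (((b.out * a.out : Γ) : Γ ⧸ X.K Γ x)).out) ≠ 0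
      obtain ⟨k, hk, e⟩ := out_eq X x (b.out * a.out)
      rw [e, mul_assoc, inv_mul_cancel_left, h_right_inv h₁ hk]
      exact left_ne_zero_of_mul h0

lemma hconv_apply (h₁ h₂ : HeckeFn X Γ x) (a b : Γ ⧸ X.K Γ x) :
    (hconv h₁ h₂).h (a.out⁻¹ * b.out) =
      ∑ᶠ c : Γ ⧸ X.K Γ x, h₁.h (a.out⁻¹ * c.out) * h₂.h (c.out⁻¹ * b.out) := by
  show ∑ᶠ c : Γ ⧸ X.K Γ x, h₁.h c.out * h₂.h (c.out⁻¹ * (a.out⁻¹ * b.out)) = _
  rw [← finsum_comp_equiv (MulAction.toPerm (a.out⁻¹))]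
  refine finsum_congr fun c => ?_
  rw [MulAction.toPerm_apply]
  induction c using QuotientGroup.induction_on with
  | H c =>
    show h₁.h (((a.out⁻¹ * c : Γ) : Γ ⧸ X.K Γ x)).out *
      h₂.h ((((a.out⁻¹ * c : Γ) : Γ ⧸ X.K Γ x)).out⁻¹ * (a.out⁻¹ * b.out)) = _
    rw [h_out, h_out_inv_mul, h_out_inv_mul]
    have e : (a.out⁻¹ * c)⁻¹ * (a.out⁻¹ * b.out) = c⁻¹ * b.out := by group
    rw [e]
    congr 1
    obtain ⟨k, hk, e⟩ := out_eq X x c
    rw [e, ← mul_assoc, h_right_inv h₁ hk]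

/-- The norm is submultiplicative. -/
theorem hconv_local {h₁ h₂ : HeckeFn X Γ x} {ρ₁ ρ₂ : ℝ≥0} (H₁ : LocalNormLe h₁ ρ₁)
    (H₂ : LocalNormLe h₂ ρ₂) : LocalNormLe (hconv h₁ h₂) (ρ₁ * ρ₂) := by
  classical
  intro f S
  have hfin : {c : Γ ⧸ X.K Γ x | ∑ b ∈ f.support, h₂.h (c.out⁻¹ * b.out) * f b ≠ 0}.Finite := by
    refine (f.support.finite_toSet.biUnion fun b _ => fin_col h₂ b).subset ?_
    intro c hc
    by_contra h
    apply hc
    refine Finset.sum_eq_zero fun b hb => ?_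
    have : h₂.h (c.out⁻¹ * b.out) = 0 := by
      by_contra h0
      exact h (Set.mem_biUnion (Finset.mem_coe.2 hb) h0)
    rw [this, zero_mul]
  let g : (Γ ⧸ X.K Γ x) →₀ ℂ := Finsupp.ofSupportFinite
    (fun c => ∑ b ∈ f.support, h₂.h (c.out⁻¹ * b.out) * f b) hfin
  have hg : ∀ c, g c = ∑ b ∈ f.support, h₂.h (c.out⁻¹ * b.out) * f b := fun c => rfl
  have e1 : ∀ a : Γ ⧸ X.K Γ x, ∑ b ∈ f.support, (hconv h₁ h₂).h (a.out⁻¹ * b.out) * f b =
      ∑ c ∈ g.support, h₁.h (a.out⁻¹ * c.out) * g c := by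
    intro a
    set U := (fin_row h₁ a).toFinset with hU
    have e2 : ∀ b : Γ ⧸ X.K Γ x, (hconv h₁ h₂).h (a.out⁻¹ * b.out) =
        ∑ c ∈ U, h₁.h (a.out⁻¹ * c.out) * h₂.h (c.out⁻¹ * b.out) := by
      intro b
      rw [hconv_apply]
      refine finsum_eq_sum_of_support_subset _ ?_
      intro c hc
      rw [Finset.mem_coe, hU, Set.Finite.mem_toFinset]
      exact left_ne_zero_of_mul hc
    have e3 : ∑ c ∈ g.support, h₁.h (a.out⁻¹ * c.out) * g c =
        ∑ c ∈ U, h₁.h (a.out⁻¹ * c.out) * g c := by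
      rw [← Finset.sum_subset (Finset.inter_subset_left (s₁ := g.support) (s₂ := U)),
        ← Finset.sum_subset (Finset.inter_subset_right (s₁ := g.support) (s₂ := U))]
      · intro c hc hc'
        have : g c = 0 := by
          by_contra h0
          exact hc' (Finset.mem_inter.2 ⟨Finsupp.mem_support_iff.2 h0, hc⟩)
        rw [this, mul_zero]
      · intro c hc hc'
        have : h₁.h (a.out⁻¹ * c.out) = 0 := by
          by_contra h0
          refine hc' (Finset.mem_inter.2 ⟨hc, ?_⟩)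
          rw [hU, Set.Finite.mem_toFinset]
          exact h0
        rw [this, zero_mul]
    rw [e3]
    simp only [e2, hg, Finset.mul_sum, Finset.sum_mul]
    rw [Finset.sum_comm]
    refine Finset.sum_congr rfl fun c _ => Finset.sum_congr rfl fun b _ => ?_
    ring
  simp only [e1]
  refine (H₁ g S).trans ?_
  have h2 := H₂ f g.support
  simp only [← hg] at h2
  calc (ρ₁ : ℝ) ^ 2 * ∑ b ∈ g.support, ‖g b‖ ^ 2
      ≤ (ρ₁ : ℝ) ^ 2 * ((ρ₂ : ℝ) ^ 2 * ∑ b ∈ f.support, ‖f b‖ ^ 2) := by gcongr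
    _ = _ := by
      rw [NNReal.coe_mul]
      ring

/-- The adjoint has the same bound. -/
theorem star_local {h : HeckeFn X Γ x} {ρ : ℝ≥0} (H : LocalNormLe h ρ) :
    LocalNormLe h.star ρ := by
  classical
  intro f S
  let g : (Γ ⧸ X.K Γ x) →₀ ℂ := Finsupp.onFinset S
    (fun a => if a ∈ S then ∑ b ∈ f.support, h.star.h (a.out⁻¹ * b.out) * f b else 0) (by
      intro a ha
      by_contra hc
      exact ha (if_neg hc))
  have hg : ∀ a ∈ S, g a = ∑ b ∈ f.support, h.star.h (a.out⁻¹ * b.out) * f b :=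
    fun a ha => if_pos ha
  have hg0 : ∀ a ∉ S, g a = 0 := fun a ha => if_neg ha
  have hgs : g.support ⊆ S := Finsupp.support_onFinset_subset
  have e1 : ∑ a ∈ S, ‖∑ b ∈ f.support, h.star.h (a.out⁻¹ * b.out) * f b‖ ^ 2 =
      ∑ a ∈ g.support, ‖g a‖ ^ 2 := by
    rw [Finset.sum_subset hgs (f := fun a => ‖g a‖ ^ 2)]
    · exact Finset.sum_congr rfl fun a ha => by rw [hg a ha]
    · intro a _ ha
      rw [Finsupp.notMem_support_iff.1 ha, norm_zero, zero_pow two_ne_zero]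
  rw [e1]
  set A : ℝ := ∑ a ∈ g.support, ‖g a‖ ^ 2 with hA
  set B : ℝ := ∑ b ∈ f.support, ‖f b‖ ^ 2 with hB
  have hA0 : 0 ≤ A := Finset.sum_nonneg fun _ _ => by positivity
  have hB0 : 0 ≤ B := Finset.sum_nonneg fun _ _ => by positivity
  have e2 : (A : ℂ) = ∑ b ∈ f.support, f b *
      starRingEnd ℂ (∑ a ∈ g.support, h.h (b.out⁻¹ * a.out) * g a) := by
    rw [hA, Complex.ofReal_sum]
    simp only [map_sum, Finset.mul_sum]
    rw [Finset.sum_comm]
    refine Finset.sum_congr rfl fun a ha => ?_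
    have : ((‖g a‖ ^ 2 : ℝ) : ℂ) = g a * starRingEnd ℂ (g a) := by
      rw [Complex.mul_conj, Complex.normSq_eq_norm_sq]
    rw [this]
    conv_lhs => rw [hg a (hgs ha)]
    rw [Finset.sum_mul]
    refine Finset.sum_congr rfl fun b _ => ?_
    show starRingEnd ℂ (h.h (a.out⁻¹ * b.out)⁻¹) * f b * _ = _
    rw [_root_.mul_inv_rev, inv_inv, hg a (hgs ha), map_mul]
    ring
  have h1 : A ≤ ∑ b ∈ f.support, ‖f b‖ * ‖∑ a ∈ g.support, h.h (b.out⁻¹ * a.out) * g a‖ := by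
    have : A = ‖(A : ℂ)‖ := by rw [Complex.norm_real, Real.norm_of_nonneg hA0]
    rw [this, e2]
    refine (norm_sum_le _ _).trans (le_of_eq ?_)
    refine Finset.sum_congr rfl fun b _ => ?_
    rw [norm_mul, RCLike.norm_conj]
  have h2 := Finset.sum_mul_sq_le_sq_mul_sq f.support (fun b => ‖f b‖)
    (fun b => ‖∑ a ∈ g.support, h.h (b.out⁻¹ * a.out) * g a‖)
  have h3 := H g f.support
  have h4 : A ^ 2 ≤ B * ((ρ : ℝ) ^ 2 * A) := by
    calc A ^ 2 ≤ (∑ b ∈ f.support, ‖f b‖ * ‖∑ a ∈ g.support, h.h (b.out⁻¹ * a.out) * g a‖) ^ 2 :=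
          pow_le_pow_left₀ hA0 h1 2
      _ ≤ _ := h2
      _ ≤ _ := mul_le_mul_of_nonneg_left h3 hB0
  rcases hA0.eq_or_lt with h0 | h0
  · rw [← h0]
    positivity
  · have h5 : A * A ≤ ((ρ : ℝ) ^ 2 * B) * A := by nlinarith
    exact le_of_mul_le_mul_right h5 h0

section Restrict

variable {Γ' : Subgroup (GL (Fin N) F)} (hΓ : Γ' ≤ Γ)

/-- the inclusion on cosets -/
noncomputable def iota (x : X.V) (a : Γ' ⧸ X.K Γ' x) : Γ ⧸ X.K Γ x :=
  ((Subgroup.inclusion hΓ a.out : Γ) : Γ ⧸ X.K Γ x)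

lemma iota_inj : Function.Injective (iota (X := X) hΓ x) := by
  intro a b h
  have h1 := QuotientGroup.eq.1 h
  rw [← QuotientGroup.out_eq' a, ← QuotientGroup.out_eq' b]
  refine QuotientGroup.eq.2 ?_
  rw [X.mem_K] at h1 ⊢
  exact h1

/-- The restriction of a Hecke function to a subgroup. -/
noncomputable def hres (h : HeckeFn X Γ x) : HeckeFn X Γ' x where
  h g := h.h (Subgroup.inclusion hΓ g)
  biinv k hk k' hk' g := by
    rw [map_mul, map_mul]
    exact h.biinv _ hk _ hk' _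
  finL := by
    refine Set.Finite.subset (h.finL.preimage (iota_inj (X := X) (x := x) hΓ).injOn) ?_
    intro a ha
    show h.h (((Subgroup.inclusion hΓ a.out : Γ) : Γ ⧸ X.K Γ x)).out ≠ 0
    rw [h_out]
    exact ha
  finR := by
    refine Set.Finite.subset (h.finR.preimage (iota_inj (X := X) (x := x) hΓ).injOn) ?_
    intro a ha
    show h.h (((Subgroup.inclusion hΓ a.out : Γ) : Γ ⧸ X.K Γ x)).out⁻¹ ≠ 0
    rw [h_out_inv]
    exact ha

/-- The norm of the restriction is at most the norm. -/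
theorem hres_local {h : HeckeFn X Γ x} {ρ : ℝ≥0} (H : LocalNormLe h ρ) :
    LocalNormLe (hres hΓ h) ρ := by
  classical
  intro f S
  let i : (Γ' ⧸ X.K Γ' x) ↪ (Γ ⧸ X.K Γ x) := ⟨iota hΓ x, iota_inj hΓ⟩
  have h1 := H (Finsupp.embDomain i f) (S.map i)
  rw [Finset.sum_map, Finsupp.support_embDomain] at h1
  simp only [Finset.sum_map, Finsupp.embDomain_apply_self] at h1
  have e : ∀ a b : Γ' ⧸ X.K Γ' x, h.h ((i a).out⁻¹ * (i b).out) =
      (hres hΓ h).h (a.out⁻¹ * b.out) := by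
    intro a b
    show h.h ((((Subgroup.inclusion hΓ a.out : Γ) : Γ ⧸ X.K Γ x)).out⁻¹ *
      (((Subgroup.inclusion hΓ b.out : Γ) : Γ ⧸ X.K Γ x)).out) = _
    rw [h_mk]
    rfl
  simp only [e] at h1
  exact h1

end Restrict

end Pool.Agent.Helper99.SCH
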