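import Pool.Agent.Helper99.SCH.Mat

/-! The Iwasawa decomposition. -/

open Matrix

namespace Pool.Agent.Helper99.SCH

open Pool.Agent.Helper80.AT

variable {F : Type} [Field F] {N : ℕ} {v : Valuation F (WithZero (Multiplicative ℤ))}

/-- upper triangular -/
def Up (M : Matrix (Fin N) (Fin N) F) : Prop := ∀ i j, j < i → M i j = 0

/-- integral with unit determinant -/
def IsK (v : Valuation F (WithZero (Multiplicative ℤ))) (M : Matrix (Fin N) (Fin N) F) : Prop :=
  IsInt v M ∧ v M.det = 1

lemma IsK.mul {A B : Matrix (Fin N) (Fin N) F} (hA : IsK v A) (hB : IsK v B) : IsK v (A * B) :=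
  ⟨hA.1.mul hB.1, by rw [Matrix.det_mul, map_mul, hA.2, hB.2, one_mul]⟩

lemma IsK.one : IsK v (1 : Matrix (Fin N) (Fin N) F) := ⟨IsInt.one, by rw [Matrix.det_one, map_one]⟩

lemma isK_swap (i j : Fin N) : IsK v ((Equiv.swap i j).permMatrix F) := by
  constructor
  · intro k l
    rw [Equiv.Perm.permMatrix, PEquiv.toMatrix_apply]
    split_ifs <;> simp
  · rw [Matrix.det_permutation]
    rcases Int.units_eq_one_or (Equiv.Perm.sign (Equiv.swap i j)) with h | h
    · rw [h]
      simp
    · rw [h]
      simp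

/-- one step of the column reduction: clear the row i to the left of the diagonal -/
lemma step (g : Matrix (Fin N) (Fin N) F) (i : Fin N) (h0 : g i i ≠ 0)
    (hmax : ∀ j, j < i → v (g i j) ≤ v (g i i)) :
    ∃ k : Matrix (Fin N) (Fin N) F, IsK v k ∧ (∀ j, j < i → (g * k) i j = 0) ∧
      ∀ i' : Fin N, i < i' → (∀ j, j < i' → g i' j = 0) → ∀ j, j < i' → (g * k) i' j = 0 := by
  set w : Fin N → F := fun j => if j < i then -(g i j / g i i) else 0 with hw
  set e : Fin N → F := Pi.single i 1 with he
  have hwe : w ⬝ᵥ e = 0 := by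
    rw [he, dotProduct_single, mul_one, hw]
    simp
  have hmul : ∀ i' j, (g * (1 + vecMulVec e w)) i' j = g i' j + g i' i * w j := by
    intro i' j
    rw [mul_add, mul_one, Matrix.add_apply, Matrix.mul_apply]
    congr 1
    rw [Finset.sum_eq_single i]
    · rw [vecMulVec_apply, he, Pi.single_eq_same, one_mul]
    · intro l _ hl
      rw [vecMulVec_apply, he, Pi.single_eq_of_ne hl, zero_mul, mul_zero]
    · intro h
      exact absurd (Finset.mem_univ i) h
  refine ⟨1 + vecMulVec e w, ⟨?_, ?_⟩, ?_, ?_⟩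
  · intro a b
    rw [Matrix.add_apply]
    refine (v.map_add _ _).trans (max_le (IsInt.one a b) ?_)
    rw [vecMulVec_apply, map_mul]
    refine mul_le_one' ?_ ?_
    · rw [he, Pi.single_apply]
      split_ifs <;> simp
    · rw [hw]
      dsimp only
      split_ifs with hb
      · rw [Valuation.map_neg, map_div₀]
        refine div_le_one_of_le₀ (hmax b hb) zero_le
      · simp
  · rw [Matrix.vecMulVec_eq Unit, Matrix.det_one_add_replicateCol_mul_replicateRow, hwe, add_zero,
      map_one]
  · intro j hj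
    rw [hmul, hw]
    dsimp only
    rw [if_pos hj]
    field_simp
    ring
  · intro i' hi' h j hj
    rw [hmul, h j hj, h i hi', zero_mul, zero_add]

/-- move the largest entry of the row i among the columns up to i to the column i -/
lemma pivot (g : Matrix (Fin N) (Fin N) F) (i : Fin N) :
    ∃ k : Matrix (Fin N) (Fin N) F, IsK v k ∧ (∀ j, j < i → v ((g * k) i j) ≤ v ((g * k) i i)) ∧
      ∀ i' : Fin N, i < i' → (∀ j, j < i' → g i' j = 0) → ∀ j, j < i' → (g * k) i' j = 0 := by
  obtain ⟨j0, hj0, hmax⟩ := Finset.exists_max_image (Finset.univ.filter fun j : Fin N => j ≤ i)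
    (fun j => v (g i j)) ⟨i, by simp⟩
  simp only [Finset.mem_filter, Finset.mem_univ, true_and] at hj0 hmax
  have hmul : ∀ i' j, (g * (Equiv.swap i j0).permMatrix F) i' j = g i' (Equiv.swap i j0 j) := by
    intro i' j
    rw [Equiv.Perm.permMatrix, PEquiv.mul_toMatrix_toPEquiv, Matrix.submatrix_apply,
      Equiv.symm_swap]
    rfl
  refine ⟨(Equiv.swap i j0).permMatrix F, isK_swap i j0, ?_, ?_⟩
  · intro j hj
    rw [hmul, hmul, Equiv.swap_apply_left]
    apply hmax
    by_cases h1 : j = j0
    · rw [h1, Equiv.swap_apply_right]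
    · rw [Equiv.swap_apply_of_ne_of_ne hj.ne h1]
      exact hj.le
  · intro i' hi' h j hj
    rw [hmul]
    apply h
    by_cases h1 : j = j0
    · rw [h1, Equiv.swap_apply_right]
      exact hi'
    · by_cases h2 : j = i
      · rw [h2, Equiv.swap_apply_left]
        exact lt_of_le_of_lt hj0 hi'
      · rw [Equiv.swap_apply_of_ne_of_ne h2 h1]
        exact hj

lemma iwasawa_aux (g : Matrix (Fin N) (Fin N) F) (r : ℕ) :
    ∃ k : Matrix (Fin N) (Fin N) F, IsK v k ∧
      ∀ i : Fin N, N ≤ i.1 + r → ∀ j, j < i → (g * k) i j = 0 := by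
  induction r with
  | zero =>
    refine ⟨1, IsK.one, fun i hi => ?_⟩
    have := i.2
    omega
  | succ r ih =>
    obtain ⟨k, hk, h⟩ := ih
    by_cases hr : r < N
    · set i : Fin N := ⟨N - 1 - r, by omega⟩ with hi
      have hi1 : i.1 = N - 1 - r := rfl
      obtain ⟨k1, hk1, h1, h1'⟩ := pivot (v := v) (g * k) i
      have h2 : ∀ i' : Fin N, i < i' → ∀ j, j < i' → (g * k * k1) i' j = 0 := by
        intro i' hi'
        refine h1' i' hi' (h i' ?_)
        have : i.1 < i'.1 := hi'
        omega
      by_cases h0 : (g * k * k1) i i = 0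
      · refine ⟨k * k1, hk.mul hk1, fun i' hi' j hj => ?_⟩
        rw [← mul_assoc]
        rcases (show i ≤ i' by rw [Fin.le_def]; omega).eq_or_lt with h3 | h3
        · subst h3
          have h4 := h1 j hj
          rw [h0, map_zero] at h4
          exact v.zero_iff.1 (le_antisymm h4 zero_le)
        · exact h2 i' h3 j hj
      · obtain ⟨k2, hk2, h3, h3'⟩ := step (v := v) (g * k * k1) i h0 h1
        refine ⟨k * k1 * k2, (hk.mul hk1).mul hk2, fun i' hi' j hj => ?_⟩
        rw [← mul_assoc, ← mul_assoc]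
        rcases (show i ≤ i' by rw [Fin.le_def]; omega).eq_or_lt with h4 | h4
        · subst h4
          exact h3 j hj
        · exact h3' i' h4 (h2 i' h4) j hj
    · refine ⟨k, hk, fun i _ => h i ?_⟩
      omega

/-- every matrix is an upper triangular matrix times an element of K -/
lemma iwasawa (g : Matrix (Fin N) (Fin N) F) :
    ∃ k : Matrix (Fin N) (Fin N) F, IsK v k ∧ Up (g * k) := by
  obtain ⟨k, hk, h⟩ := iwasawa_aux (v := v) g N
  exact ⟨k, hk, fun i j hj => h i (by omega) j hj⟩

lemma up_iff (M : Matrix (Fin N) (Fin N) F) : Up M ↔ M.BlockTriangular id := Iff.rfl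

lemma Up.mul {A B : Matrix (Fin N) (Fin N) F} (hA : Up A) (hB : Up B) : Up (A * B) :=
  Matrix.BlockTriangular.mul hA hB

lemma Up.diag_mul {A B : Matrix (Fin N) (Fin N) F} (hA : Up A) (hB : Up B) (i : Fin N) :
    (A * B) i i = A i i * B i i := by
  rw [Matrix.mul_apply]
  refine Finset.sum_eq_single i ?_ ?_
  · intro j _ hj
    rcases lt_or_gt_of_ne hj with h | h
    · rw [hA i j h, zero_mul]
    · rw [hB j i h, mul_zero]
  · intro h
    exact absurd (Finset.mem_univ i) h

lemma Up.inv {g : GL (Fin N) F} (h : Up (g : Matrix (Fin N) (Fin N) F)) :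
    Up ((g⁻¹ : GL (Fin N) F) : Matrix (Fin N) (Fin N) F) := by
  rw [Matrix.coe_units_inv]
  have : Invertible (g : Matrix (Fin N) (Fin N) F) := g.invertible
  exact Matrix.blockTriangular_inv_of_blockTriangular h

lemma Up.diag_ne {g : GL (Fin N) F} (h : Up (g : Matrix (Fin N) (Fin N) F)) (i : Fin N) :
    (g : Matrix (Fin N) (Fin N) F) i i ≠ 0 := by
  intro h0
  have h1 := h.diag_mul h.inv i
  rw [← Units.val_mul, mul_inv_cancel, Units.val_one, h0, zero_mul, Matrix.one_apply_eq] at h1
  exact one_ne_zero h1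

/-- the diagonal of an upper triangular representative is well defined up to units -/
lemma diag_unique {b k : GL (Fin N) F} (hb : Up (b : Matrix (Fin N) (Fin N) F))
    (hk : IsK v (k : Matrix (Fin N) (Fin N) F))
    (hbk : Up ((b * k : GL (Fin N) F) : Matrix (Fin N) (Fin N) F)) (i : Fin N) :
    v (((b * k : GL (Fin N) F) : Matrix (Fin N) (Fin N) F) i i) =
      v ((b : Matrix (Fin N) (Fin N) F) i i) := by
  have hku : Up (k : Matrix (Fin N) (Fin N) F) := by
    have := hb.inv.mul hbk
    rw [← Units.val_mul, inv_mul_cancel_left] at this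
    exact this
  have h1 : v (∏ i, (k : Matrix (Fin N) (Fin N) F) i i) = 1 := by
    rw [← Matrix.det_of_isUpperTriangular hku]
    exact hk.2
  have h2 : ∀ i, v ((k : Matrix (Fin N) (Fin N) F) i i) = 1 := by
    intro i
    refine le_antisymm (hk.1 i i) ?_
    rw [← h1, map_prod, ← Finset.mul_prod_erase _ _ (Finset.mem_univ i)]
    calc v ((k : Matrix (Fin N) (Fin N) F) i i) *
        ∏ j ∈ Finset.univ.erase i, v ((k : Matrix (Fin N) (Fin N) F) j j)
        ≤ v ((k : Matrix (Fin N) (Fin N) F) i i) * 1 :=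
          mul_le_mul_right (Finset.prod_le_one' fun j _ => hk.1 j j) _
      _ = _ := mul_one _
  rw [Units.val_mul, hb.diag_mul hku, map_mul, h2, mul_one]

end Pool.Agent.Helper99.SCH
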