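import Pool.Agent.Helper80.AT.HeckeOp

/-! Integral matrices over a discretely valued field. -/

open Matrix

namespace Pool.Agent.Helper99.SCH

open Pool.Agent.Helper80.AT

variable {F : Type} [Field F] {N : ℕ} (v : Valuation F (WithZero (Multiplicative ℤ)))

/-- all entries are integral -/
def IsInt (M : Matrix (Fin N) (Fin N) F) : Prop := ∀ i j, v (M i j) ≤ 1

variable {v}

lemma v_sum_le {ι : Type} (s : Finset ι) (f : ι → F) {c : WithZero (Multiplicative ℤ)}
    (h : ∀ i ∈ s, v (f i) ≤ c) : v (∑ i ∈ s, f i) ≤ c := Valuation.map_sum_le _ h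

lemma v_sum_lt {ι : Type} (s : Finset ι) (f : ι → F) {c : WithZero (Multiplicative ℤ)}
    (hc : c ≠ 0) (h : ∀ i ∈ s, v (f i) < c) : v (∑ i ∈ s, f i) < c := Valuation.map_sum_lt _ hc h

lemma IsInt.mul {A B : Matrix (Fin N) (Fin N) F} (hA : IsInt v A) (hB : IsInt v B) :
    IsInt v (A * B) := by
  intro i j
  rw [Matrix.mul_apply]
  refine v_sum_le _ _ fun k _ => ?_
  rw [map_mul]
  exact mul_le_one' (hA i k) (hB k j)

lemma IsInt.det {n : Type} [Fintype n] [DecidableEq n] {A : Matrix n n F}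
    (hA : ∀ i j, v (A i j) ≤ 1) : v A.det ≤ 1 := by
  rw [Matrix.det_apply]
  refine v_sum_le _ _ fun σ _ => ?_
  have h1 : v (∏ i, A (σ i) i) ≤ 1 := by
    rw [map_prod]
    exact Finset.prod_le_one' fun i _ => hA _ _
  rcases Int.units_eq_one_or (Equiv.Perm.sign σ) with h | h
  · rw [h, one_smul]
    exact h1
  · rw [h, Units.neg_smul, one_smul, Valuation.map_neg]
    exact h1

lemma IsInt.adj {A : Matrix (Fin N) (Fin N) F} (hA : IsInt v A) : IsInt v A.adjugate := by
  intro i j
  rw [Matrix.adjugate_apply]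
  refine IsInt.det fun k l => ?_
  rw [Matrix.updateRow_apply]
  split_ifs with h
  · rw [Pi.single_apply]
    split_ifs <;> simp
  · exact hA k l

lemma IsInt.one : IsInt v (1 : Matrix (Fin N) (Fin N) F) := by
  intro i j
  rw [Matrix.one_apply]
  split_ifs <;> simp

lemma IsInt.transpose {A : Matrix (Fin N) (Fin N) F} (hA : IsInt v A) : IsInt v Aᵀ :=
  fun i j => hA j i

lemma det_K {A B : Matrix (Fin N) (Fin N) F} (hA : IsInt v A) (hB : IsInt v B) (h : A * B = 1) :
    v A.det = 1 := by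
  have h1 : v A.det * v B.det = 1 := by
    rw [← map_mul, ← Matrix.det_mul, h, Matrix.det_one, map_one]
  have h2 := IsInt.det hA
  have h3 := IsInt.det hB
  refine le_antisymm h2 ?_
  calc (1 : WithZero (Multiplicative ℤ)) = v A.det * v B.det := h1.symm
    _ ≤ v A.det * 1 := mul_le_mul_right h3 _
    _ = v A.det := mul_one _

variable (X : Places F) (x : X.V) (Γ : Subgroup (GL (Fin N) F))

lemma pole_zero_iff (f : F) : X.pole x f ≤ 0 ↔ X.val x f ≤ 1 := by
  rw [X.pole_le_iff]
  simp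

lemma mem_K_iff (g : Γ) : g ∈ X.K Γ x ↔
    IsInt (X.val x) ((g : GL (Fin N) F) : Matrix (Fin N) (Fin N) F) ∧
      X.val x ((g : GL (Fin N) F) : Matrix (Fin N) (Fin N) F).det = 1 := by
  rw [X.mem_K, ← Nat.le_zero, X.size_le_iff]
  simp only [pole_zero_iff]
  constructor
  · rintro ⟨h1, h2⟩
    refine ⟨h1, det_K h1 (B := ((((g : GL (Fin N) F))⁻¹ : GL (Fin N) F) : Matrix (Fin N) (Fin N) F))
      h2 ?_⟩
    rw [← Units.val_mul, mul_inv_cancel, Units.val_one]
  · rintro ⟨h1, h2⟩
    refine ⟨h1, ?_⟩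
    have h3 := h1.adj
    intro i j
    rw [Matrix.coe_units_inv, Matrix.inv_def, Matrix.smul_apply, smul_eq_mul, map_mul]
    have h4 : X.val x (Ring.inverse ((g : GL (Fin N) F) : Matrix (Fin N) (Fin N) F).det) = 1 := by
      rw [Ring.inverse_eq_inv', map_inv₀, h2, inv_one]
    rw [h4, one_mul]
    exact h3 i j

lemma lt_one_iff (c : WithZero (Multiplicative ℤ)) : c < 1 ↔ c ≤ WithZero.exp (-1 : ℤ) := by
  rcases eq_or_ne c 0 with h | h
  · subst h
    simp
  · rw [← WithZero.log_le_iff_le_exp h, ← WithZero.exp_zero, ← WithZero.log_lt_iff_lt_exp h]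
    omega

/-- a relation between the rows modulo the maximal ideal -/
lemma exists_row [NeZero N] (hv : Function.Surjective v) {g : Matrix (Fin N) (Fin N) F}
    (hg : IsInt v g) (hd : v g.det = WithZero.exp (-1 : ℤ)) :
    ∃ d : Fin N → F, (∀ i, v (d i) ≤ 1) ∧ (∃ i, v (d i) = 1) ∧ ∀ k, v ((d ᵥ* g) k) < 1 := by
  by_cases h : ∃ r i, v (g.adjugate r i) = 1
  · obtain ⟨r, i, h⟩ := h
    refine ⟨g.adjugate r, fun i => hg.adj r i, ⟨i, h⟩, fun k => ?_⟩
    have e : (g.adjugate r ᵥ* g) k = (g.adjugate * g) r k := by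
      rw [Matrix.mul_apply]
      rfl
    rw [e, Matrix.adjugate_mul, Matrix.smul_apply, Matrix.one_apply, smul_eq_mul, map_mul, hd]
    split_ifs
    · rw [map_one, mul_one, lt_one_iff]
    · rw [map_zero, mul_zero]
      exact zero_lt_one
  · push Not at h
    exfalso
    obtain ⟨p, hp⟩ := hv (WithZero.exp (-1 : ℤ))
    have hp0 : p ≠ 0 := by
      intro h0
      rw [h0, map_zero] at hp
      exact (WithZero.exp_ne_zero hp.symm)
    have h1 : IsInt v (p⁻¹ • g.adjugate) := by
      intro r i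
      rw [Matrix.smul_apply, smul_eq_mul, map_mul, map_inv₀, hp, ← WithZero.exp_neg]
      have h2 : v (g.adjugate r i) ≤ WithZero.exp (-1 : ℤ) := by
        rw [← lt_one_iff]
        exact lt_of_le_of_ne (hg.adj r i) (h r i)
      calc WithZero.exp (- -1 : ℤ) * v (g.adjugate r i)
          ≤ WithZero.exp (- -1 : ℤ) * WithZero.exp (-1 : ℤ) := mul_le_mul_right h2 _
        _ = 1 := by rw [← WithZero.exp_add]; simp
    have h2 := IsInt.det h1
    rw [Matrix.det_smul, Matrix.det_adjugate, Fintype.card_fin, map_mul, map_pow, map_pow, map_inv₀,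
      hp, hd, ← WithZero.exp_neg, ← WithZero.exp_nsmul, ← WithZero.exp_nsmul, ← WithZero.exp_add,
      ← WithZero.exp_zero, WithZero.exp_le_exp] at h2
    have hN : 0 < N := Nat.pos_of_ne_zero (NeZero.ne N)
    simp only [nsmul_eq_mul] at h2
    rw [Nat.cast_sub hN] at h2
    push_cast at h2
    linarith

end Pool.Agent.Helper99.SCH
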