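import Pool.Agent.Helper99.SCH.Iwa

/-! Representatives for the cosets of index q. -/

open Matrix

namespace Pool.Agent.Helper99.SCH

open Pool.Agent.Helper80.AT

variable {F : Type} [Field F] {N : ℕ} {v : Valuation F (WithZero (Multiplicative ℤ))}

/-- the unit matrix with the row j replaced by (p at j, minus c elsewhere) -/
def rowMat (p : F) (j : Fin N) (c : Fin N → F) : Matrix (Fin N) (Fin N) F :=
  Matrix.updateRow 1 j fun i => if i = j then p else -c i

/-- the unit matrix with the column j replaced by (p at j, minus c elsewhere) -/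
def colMat (p : F) (j : Fin N) (c : Fin N → F) : Matrix (Fin N) (Fin N) F := (rowMat p j c)ᵀ

/-- the vectors with entries in C where A holds, 0 elsewhere -/
def vecs (C : Finset F) (A : Fin N → Prop) [DecidablePred A] : Finset (Fin N → F) :=
  Fintype.piFinset fun i => if A i then C else {0}

lemma mem_vecs {C : Finset F} {A : Fin N → Prop} [DecidablePred A] {c : Fin N → F} :
    c ∈ vecs C A ↔ ∀ i, (A i → c i ∈ C) ∧ (¬ A i → c i = 0) := by
  unfold vecs
  rw [Fintype.mem_piFinset]
  refine forall_congr' fun i => ?_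
  by_cases h : A i
  · simp [h]
  · simp [h]

lemma card_vecs (C : Finset F) (A : Fin N → Prop) [DecidablePred A] :
    (vecs C A).card = C.card ^ (Finset.univ.filter A).card := by
  unfold vecs
  rw [Fintype.card_piFinset]
  have : ∀ i, (if A i then C else {0} : Finset F).card = if A i then C.card else 1 := by
    intro i
    split_ifs <;> simp
  simp only [this]
  rw [Finset.prod_ite, Finset.prod_const, Finset.prod_const_one, mul_one]

lemma det_rowMat (p : F) (j : Fin N) (c : Fin N → F) : (rowMat p j c).det = p := by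
  unfold rowMat
  have h := Matrix.cramer_transpose_apply (1 : Matrix (Fin N) (Fin N) F)
    (fun i => if i = j then p else -c i) j
  rw [← h, Matrix.transpose_one, Matrix.cramer_one]
  simp

lemma rowMat_mul (p : F) (j : Fin N) (c : Fin N → F) (k : Matrix (Fin N) (Fin N) F) (i l : Fin N) :
    (rowMat p j c * k) i l = if i = j then p * k j l - ∑ m ∈ Finset.univ.erase j, c m * k m l
      else k i l := by
  unfold rowMat
  rw [Matrix.mul_apply]
  split_ifs with h
  · subst h
    rw [← Finset.add_sum_erase _ _ (Finset.mem_univ i)]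
    simp only [Matrix.updateRow_self, if_true]
    rw [sub_eq_add_neg, ← Finset.sum_neg_distrib]
    congr 1
    refine Finset.sum_congr rfl fun m hm => ?_
    rw [if_neg (Finset.ne_of_mem_erase hm)]
    ring
  · simp only [Matrix.updateRow_ne h, Matrix.one_apply, ite_mul, one_mul, zero_mul]
    simp

lemma rep_aux {C : Finset F}
    (hC : ∀ f, v f ≤ 1 → ∃ c ∈ C, v (f - c) < 1) {g : Matrix (Fin N) (Fin N) F}
    (hg : IsInt v g) {p : F} (hp : v p = WithZero.exp (-1 : ℤ))
    (hd : v g.det = WithZero.exp (-1 : ℤ)) {d : Fin N → F} (h1 : ∀ i, v (d i) ≤ 1) (j : Fin N)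
    (hj : v (d j) = 1) (h2 : ∀ k, v ((d ᵥ* g) k) < 1) (A : Fin N → Prop) [DecidablePred A]
    (hA : ¬ A j) (hlt : ∀ i, ¬ A i → i ≠ j → v (d i) < 1) :
    ∃ c ∈ vecs C A, ∃ k, IsK v k ∧ g = rowMat p j c * k := by
  have hdj : d j ≠ 0 := by
    intro h
    rw [h, map_zero] at hj
    exact zero_ne_one hj
  have hp0 : p ≠ 0 := by
    intro h0
    rw [h0, map_zero] at hp
    exact (WithZero.exp_ne_zero hp.symm)
  have h3 : ∀ i, ∃ c : F, (A i → c ∈ C ∧ v (d i / d j - c) < 1) ∧ (¬ A i → c = 0) := by
    intro i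
    by_cases h : A i
    · obtain ⟨c, hc, hc'⟩ := hC (d i / d j) (by rw [map_div₀, hj, div_one]; exact h1 i)
      exact ⟨c, fun _ => ⟨hc, hc'⟩, fun h' => absurd h h'⟩
    · exact ⟨0, fun h' => absurd h' h, fun _ => rfl⟩
  choose c hcA hc0 using h3
  have hcj : c j = 0 := hc0 j hA
  have hsum : ∀ k, v (g j k + ∑ i, c i * g i k) < 1 := by
    intro k
    have e : g j k + ∑ i, c i * g i k =
        (∑ i, ((if i = j then 1 else 0) + c i - d i / d j) * g i k) + (d j)⁻¹ * (d ᵥ* g) k := by
      have e1 : (d ᵥ* g) k = ∑ i, d i * g i k := rfl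
      rw [e1, Finset.mul_sum, ← Finset.sum_add_distrib]
      have e2 : g j k = ∑ i, (if i = j then 1 else 0) * g i k := by simp
      rw [e2, ← Finset.sum_add_distrib]
      refine Finset.sum_congr rfl fun i _ => ?_
      field_simp
      ring
    rw [e]
    refine (v.map_add _ _).trans_lt (max_lt ?_ ?_)
    · refine v_sum_lt _ _ one_ne_zero fun i _ => ?_
      rw [map_mul]
      refine lt_of_le_of_lt (mul_le_mul_right (hg i k) _) ?_
      rw [mul_one]
      by_cases hi : i = j
      · subst hi
        rw [if_pos rfl, hcj, div_self hdj, add_zero, sub_self, map_zero]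
        exact zero_lt_one
      · rw [if_neg hi, zero_add]
        by_cases hAi : A i
        · rw [← neg_sub, Valuation.map_neg]
          exact (hcA i hAi).2
        · rw [hc0 i hAi, zero_sub, Valuation.map_neg, map_div₀, hj, div_one]
          exact hlt i hAi hi
    · rw [map_mul, map_inv₀, hj, inv_one, one_mul]
      exact h2 k
  refine ⟨c, mem_vecs.2 fun i => ⟨fun h => (hcA i h).1, hc0 i⟩, ?_⟩
  set k : Matrix (Fin N) (Fin N) F := Matrix.updateRow g j fun l =>
    p⁻¹ * (g j l + ∑ i, c i * g i l) with hk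
  have hkj : ∀ l, k j l = p⁻¹ * (g j l + ∑ i, c i * g i l) := by
    intro l
    rw [hk, Matrix.updateRow_self]
  have hki : ∀ i l, i ≠ j → k i l = g i l := by
    intro i l h
    rw [hk, Matrix.updateRow_ne h]
  have hgk : g = rowMat p j c * k := by
    ext i l
    rw [rowMat_mul]
    split_ifs with h
    · subst h
      have e1 : ∑ m ∈ Finset.univ.erase i, c m * k m l = ∑ m ∈ Finset.univ.erase i, c m * g m l :=
        Finset.sum_congr rfl fun m hm => by rw [hki m l (Finset.ne_of_mem_erase hm)]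
      rw [hkj, ← mul_assoc, mul_inv_cancel₀ hp0, one_mul, e1,
        ← Finset.add_sum_erase Finset.univ (fun m => c m * g m l) (Finset.mem_univ i), hcj]
      ring
    · rw [hki i l h]
  refine ⟨k, ⟨?_, ?_⟩, hgk⟩
  · intro i l
    by_cases h : i = j
    · subst h
      rw [hkj, map_mul, map_inv₀, hp, ← WithZero.exp_neg]
      calc WithZero.exp (- -1 : ℤ) * v (g i l + ∑ i, c i * g i l)
          ≤ WithZero.exp (- -1 : ℤ) * WithZero.exp (-1 : ℤ) :=
            mul_le_mul_right ((lt_one_iff _).1 (hsum l)) _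
        _ = 1 := by rw [← WithZero.exp_add]; simp
    · rw [hki i l h]
      exact hg i l
  · have h4 := congrArg (fun M => v (Matrix.det M)) hgk
    simp only [Matrix.det_mul, det_rowMat, map_mul, hd, hp] at h4
    have h5 : WithZero.exp (-1 : ℤ) * 1 = WithZero.exp (-1 : ℤ) * v k.det := by
      rw [mul_one]
      exact h4
    exact (mul_left_cancel₀ WithZero.exp_ne_zero h5).symm

lemma row_rep [NeZero N] (hv : Function.Surjective v) {C : Finset F}
    (hC : ∀ f, v f ≤ 1 → ∃ c ∈ C, v (f - c) < 1) {g : Matrix (Fin N) (Fin N) F}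
    (hg : IsInt v g) {p : F} (hp : v p = WithZero.exp (-1 : ℤ))
    (hd : v g.det = WithZero.exp (-1 : ℤ)) :
    ∃ j : Fin N, ∃ c ∈ vecs C (fun i => j < i), ∃ k, IsK v k ∧ g = rowMat p j c * k := by
  obtain ⟨d, h1, ⟨i0, h0⟩, h2⟩ := exists_row hv hg hd
  obtain ⟨j, hj, hmin⟩ := Finset.exists_min_image (Finset.univ.filter fun i => v (d i) = 1)
    (fun i => i) ⟨i0, by simpa using h0⟩
  simp only [Finset.mem_filter, Finset.mem_univ, true_and] at hj hmin
  refine ⟨j, rep_aux hC hg hp hd h1 j hj h2 (fun i => j < i) (lt_irrefl j) ?_⟩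
  intro i hi hij
  refine lt_of_le_of_ne (h1 i) fun h => ?_
  exact hi (lt_of_le_of_ne (hmin i h) (Ne.symm hij))

lemma col_rep [NeZero N] (hv : Function.Surjective v) {C : Finset F}
    (hC : ∀ f, v f ≤ 1 → ∃ c ∈ C, v (f - c) < 1) {g : Matrix (Fin N) (Fin N) F}
    (hg : IsInt v g) {p : F} (hp : v p = WithZero.exp (-1 : ℤ))
    (hd : v g.det = WithZero.exp (-1 : ℤ)) :
    ∃ j : Fin N, ∃ c ∈ vecs C (fun i => i < j), ∃ k, IsK v k ∧ g = k * colMat p j c := by
  have hd' : v gᵀ.det = WithZero.exp (-1 : ℤ) := by rw [Matrix.det_transpose, hd]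
  obtain ⟨d, h1, ⟨i0, h0⟩, h2⟩ := exists_row hv hg.transpose hd'
  obtain ⟨j, hj, hmax⟩ := Finset.exists_max_image (Finset.univ.filter fun i => v (d i) = 1)
    (fun i => i) ⟨i0, by simpa using h0⟩
  simp only [Finset.mem_filter, Finset.mem_univ, true_and] at hj hmax
  obtain ⟨c, hc, k, hk, e⟩ := rep_aux hC hg.transpose hp hd' h1 j hj h2 (fun i => i < j)
    (lt_irrefl j) (by
      intro i hi hij
      refine lt_of_le_of_ne (h1 i) fun h => ?_
      exact hi (lt_of_le_of_ne (hmax i h) hij))
  refine ⟨j, c, hc, kᵀ, ⟨hk.1.transpose, by rw [Matrix.det_transpose]; exact hk.2⟩, ?_⟩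
  unfold colMat
  rw [← Matrix.transpose_mul, ← e, Matrix.transpose_transpose]

lemma up_rowMat (p : F) (j : Fin N) {C : Finset F} {c : Fin N → F}
    (hc : c ∈ vecs C (fun i => j < i)) : Up (rowMat p j c) := by
  intro i l h
  unfold rowMat
  rw [Matrix.updateRow_apply]
  split_ifs with h1 h2
  · subst h1
    exact absurd h2 h.ne
  · subst h1
    rw [(mem_vecs.1 hc l).2 h.not_gt, neg_zero]
  · rw [Matrix.one_apply_ne h.ne']

lemma up_colMat (p : F) (j : Fin N) {C : Finset F} {c : Fin N → F}
    (hc : c ∈ vecs C (fun i => i < j)) : Up (colMat p j c) := by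
  intro i l h
  unfold colMat rowMat
  rw [Matrix.transpose_apply, Matrix.updateRow_apply]
  split_ifs with h1 h2
  · subst h1
    exact absurd h2 h.ne'
  · subst h1
    rw [(mem_vecs.1 hc i).2 h.not_gt, neg_zero]
  · rw [Matrix.one_apply_ne h.ne]

lemma diag_rowMat (p : F) (j : Fin N) (c : Fin N → F) (i : Fin N) :
    rowMat p j c i i = if i = j then p else 1 := by
  unfold rowMat
  rw [Matrix.updateRow_apply]
  split_ifs with h
  · rfl
  · rw [Matrix.one_apply_eq]

lemma diag_colMat (p : F) (j : Fin N) (c : Fin N → F) (i : Fin N) :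
    colMat p j c i i = if i = j then p else 1 := diag_rowMat p j c i

lemma det_colMat (p : F) (j : Fin N) (c : Fin N → F) : (colMat p j c).det = p := by
  unfold colMat
  rw [Matrix.det_transpose, det_rowMat]

end Pool.Agent.Helper99.SCH
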