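import Pool.Agent.Helper99.SCH.SlTest

/-! The test family of the index one matrices, for groups between SL_N and GL_N. -/

open Matrix
open scoped NNReal

namespace Pool.Agent.Helper99.SCH

open Pool.Agent.Helper80.AT

variable {F : Type} [Field F] {X : Places F} {N : ℕ} {x : X.V}

variable (X x) in
/-- The Hecke function at x, on a subgroup of GL_N(F), which is 1 on the integral matrices whose
determinant is a uniformiser at x, and 0 elsewhere. -/
noncomputable def idxFn [NeZero N] (Γ : Subgroup (GL (Fin N) F)) (C : Finset F)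
    (hC : ∀ f, X.val x f ≤ 1 → ∃ c ∈ C, X.val x (f - c) < 1) : HeckeFn X Γ x :=
  hres (le_top : Γ ≤ Full F N) (std X x C hC)

open Classical in
theorem idxFn_apply [NeZero N] (Γ : Subgroup (GL (Fin N) F)) (C : Finset F)
    (hC : ∀ f, X.val x f ≤ 1 → ∃ c ∈ C, X.val x (f - c) < 1) (g : Γ) :
    (idxFn X x Γ C hC).h g =
      if (∀ i j, X.val x (((g : GL (Fin N) F) : Matrix (Fin N) (Fin N) F) i j) ≤ 1) ∧
        X.val x ((g : GL (Fin N) F) : Matrix (Fin N) (Fin N) F).det = WithZero.exp (-1 : ℤ)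
      then 1 else 0 := by
  show (if IndexOne X x (mat (Subgroup.inclusion (le_top : Γ ≤ Full F N) g)) then (1 : ℂ) else 0) = _
  by_cases h : IndexOne X x (mat (Subgroup.inclusion (le_top : Γ ≤ Full F N) g))
  · rw [if_pos h]
    exact (if_pos h).symm
  · rw [if_neg h]
    exact (if_neg h).symm

theorem idxFn_norm [NeZero N] (Γ : Subgroup (GL (Fin N) F)) (C : Finset F)
    (hC : ∀ f, X.val x f ≤ 1 → ∃ c ∈ C, X.val x (f - c) < 1) :
    ((idxFn X (N := N) x Γ C hC).norm : ℝ) ≤ N * (C.card : ℝ) ^ (((N : ℝ) - 1) / 2) :=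
  norm_le_of_local (hres_local _ (std_local C hC))

theorem idxFn_vol [NeZero N] {Γ : Subgroup (GL (Fin N) F)} (hΓ : SLg F N ≤ Γ) (g₀ : Γ)
    (hg₀ : X.val x ((g₀ : GL (Fin N) F) : Matrix (Fin N) (Fin N) F).det = WithZero.exp (-1 : ℤ))
    {C : Finset F} (hC : IsReps X x C) :
    (C.card : ℝ) ^ ((N : ℝ) - 1) ≤ (idxFn X (N := N) x Γ C hC.surj).vol := by
  classical
  set p : F := ((g₀ : GL (Fin N) F) : Matrix (Fin N) (Fin N) F).det with hp'
  have hp : X.val x p = WithZero.exp (-1 : ℤ) := hg₀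
  have hN : 0 < N := Nat.pos_of_ne_zero (NeZero.ne N)
  have hmem : ∀ c : Fin N → F, ((toG (rowMat p 0 c) : Full F N) : GL (Fin N) F) ∈ Γ := by
    intro c
    have h1 : (g₀ : GL (Fin N) F)⁻¹ * ((toG (rowMat p 0 c) : Full F N) : GL (Fin N) F) ∈
        SLg F N := by
      rw [MonoidHom.mem_ker, map_mul, map_inv]
      have h2 : Matrix.GeneralLinearGroup.det ((toG (rowMat p 0 c) : Full F N) : GL (Fin N) F) =
          Matrix.GeneralLinearGroup.det (g₀ : GL (Fin N) F) := by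
        apply Units.ext
        show (mat (toG (rowMat p 0 c))).det = ((g₀ : GL (Fin N) F) : Matrix (Fin N) (Fin N) F).det
        rw [mat_row hp, det_rowMat]
      rw [h2, inv_mul_cancel]
    have h3 := Γ.mul_mem g₀.2 (hΓ h1)
    rwa [mul_inv_cancel_left] at h3
  have h1 := vol_ge_card (idxFn X (N := N) x Γ C hC.surj)
    (vecs C (fun i : Fin N => (0 : Fin N) < i))
    (fun c => (⟨((toG (rowMat p 0 c) : Full F N) : GL (Fin N) F), hmem c⟩ : Γ)) (fun c hc => by
      have h2 : (idxFn X (N := N) x Γ C hC.surj).h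
          ⟨((toG (rowMat p 0 c) : Full F N) : GL (Fin N) F), hmem c⟩ =
          (std X x C hC.surj).h (toG (rowMat p 0 c)) := rfl
      rw [h2, std_h C hC.surj (indexOne_row hC hc hp 0)]
      simp) (fun c hc d hd hk => by
      have hk' : (toG (rowMat p 0 c))⁻¹ * toG (rowMat p 0 d) ∈ X.K (Full F N) x := hk
      rw [mem_K'] at hk'
      refine row_inj hC hc hd hp hk'.1 ?_
      have e := congrArg mat (mul_inv_cancel_left (toG (rowMat p 0 c)) (toG (rowMat p 0 d)))
      rw [mat_mul, mat_row hp 0 c, mat_row hp 0 d] at e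
      exact e.symm)
  rw [card_vecs, card_gt] at h1
  refine le_trans (le_of_eq ?_) h1
  rw [Nat.cast_pow, ← Real.rpow_natCast]
  congr 1
  rw [Fin.val_zero, Nat.sub_zero, Nat.cast_sub hN]
  push_cast
  rfl

/-- The test family of the groups Γ between SL_N(F) and GL_N(F) that contain, for each x in B, an
element whose determinant is a uniformiser at x; with constant N². -/
theorem idx_test [NeZero N] {Γ : Subgroup (GL (Fin N) F)} (hΓ : SLg F N ≤ Γ)
    (C : X.V → Finset F) (hC : ∀ x, IsReps X x (C x)) (B : Finset X.V)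
    (hB : ∀ x ∈ B, ∃ g ∈ Γ, X.val x (g : Matrix (Fin N) (Fin N) F).det = WithZero.exp (-1 : ℤ))
    (D : ℕ) (hD : ∀ x ∈ B, X.deg x ≤ D) :
    TestFamily B (fun x => idxFn X (N := N) x Γ (C x) (hC x).surj) ((N : ℝ) ^ 2) D where
  vol_pos x hx := by
    obtain ⟨g, hg, hg'⟩ := hB x hx
    refine lt_of_lt_of_le ?_ (idxFn_vol hΓ ⟨g, hg⟩ hg' (hC x))
    have hQ0 : (0 : ℝ) < (C x).card := by
      obtain ⟨c, hc, _⟩ := (hC x).surj 0 (by simp)
      exact_mod_cast Finset.card_pos.2 ⟨c, hc⟩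
    positivity
  norm_le x hx := by
    obtain ⟨g, hg, hg'⟩ := hB x hx
    have h1 := idxFn_norm (X := X) (N := N) (x := x) Γ (C x) (hC x).surj
    have hQ0 : (0 : ℝ) < (C x).card := by
      obtain ⟨c, hc, _⟩ := (hC x).surj 0 (by simp)
      exact_mod_cast Finset.card_pos.2 ⟨c, hc⟩
    have e2 : ((C x).card : ℝ) ^ ((N : ℝ) - 1) = (((C x).card : ℝ) ^ (((N : ℝ) - 1) / 2)) ^ 2 := by
      rw [pow_two, ← Real.rpow_add hQ0]
      congr 1
      ring
    calc ((idxFn X (N := N) x Γ (C x) (hC x).surj).norm : ℝ) ^ 2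
        ≤ (N * ((C x).card : ℝ) ^ (((N : ℝ) - 1) / 2)) ^ 2 :=
          pow_le_pow_left₀ (NNReal.coe_nonneg _) h1 2
      _ = (N : ℝ) ^ 2 * ((C x).card : ℝ) ^ ((N : ℝ) - 1) := by rw [mul_pow, e2]
      _ ≤ _ := mul_le_mul_of_nonneg_left (idxFn_vol hΓ ⟨g, hg⟩ hg' (hC x)) (by positivity)
  size_le x hx := by
    have h1 : (idxFn X (N := N) x Γ (C x) (hC x).surj).rad ≤ 1 :=
      rad_le_of _ 1 fun g hg => size_indexOne (std_h' (C x) (hC x).surj hg)
    calc X.deg x * (idxFn X (N := N) x Γ (C x) (hC x).surj).rad ≤ X.deg x * 1 :=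
          Nat.mul_le_mul_left _ h1
      _ ≤ D := by rw [mul_one]; exact hD x hx

/-- For N ≥ 1 the value on K_x is 0. -/
theorem idx_K [NeZero N] {Γ : Subgroup (GL (Fin N) F)} (C : X.V → Finset F)
    (hC : ∀ x, IsReps X x (C x)) (x : X.V) (g : Γ) (hg : g ∈ X.K Γ x) :
    (idxFn X (N := N) x Γ (C x) (hC x).surj).h g = 0 := by
  rw [idxFn_apply, if_neg]
  rintro ⟨_, h2⟩
  have h3 := ((mem_K_iff X x Γ g).1 hg).2
  rw [h2, ← WithZero.exp_zero, WithZero.exp_inj] at h3
  norm_num at h3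

end Pool.Agent.Helper99.SCH
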