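import Pool.Agent.Helper99.SCH.Rep

/-! The Schur test for the Hecke operator of the sublattices of index q. -/

open Matrix
open scoped NNReal

namespace Pool.Agent.Helper99.SCH

open Pool.Agent.Helper80.AT

section Test

variable {F : Type} [Field F] {X : Places F} {N : ℕ} {Γ : Subgroup (GL (Fin N) F)} {x : X.V}

/-- The Schur test. -/
theorem schur (h : HeckeFn X Γ x) (φ : (Γ ⧸ X.K Γ x) → ℝ) (hφ : ∀ a, 0 < φ a) (ρ : ℝ≥0)
    (hrow : ∀ (a : Γ ⧸ X.K Γ x) (T : Finset (Γ ⧸ X.K Γ x)),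
      ∑ b ∈ T, ‖h.h (a.out⁻¹ * b.out)‖ * φ b ≤ ρ * φ a)
    (hcol : ∀ (b : Γ ⧸ X.K Γ x) (S : Finset (Γ ⧸ X.K Γ x)),
      ∑ a ∈ S, ‖h.h (a.out⁻¹ * b.out)‖ * φ a ≤ ρ * φ b) : LocalNormLe h ρ := by
  intro f S
  have h1 : ∀ a, ‖∑ b ∈ f.support, h.h (a.out⁻¹ * b.out) * f b‖ ^ 2 ≤
      ρ * ∑ b ∈ f.support, ‖h.h (a.out⁻¹ * b.out)‖ * φ a * (‖f b‖ ^ 2 / φ b) := by
    intro a
    have hcs := Finset.sum_mul_sq_le_sq_mul_sq f.support
      (fun b => Real.sqrt (‖h.h (a.out⁻¹ * b.out)‖ * φ b))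
      (fun b => Real.sqrt (‖h.h (a.out⁻¹ * b.out)‖ * (‖f b‖ ^ 2 / φ b)))
    have e1 : ∀ b, Real.sqrt (‖h.h (a.out⁻¹ * b.out)‖ * φ b) *
        Real.sqrt (‖h.h (a.out⁻¹ * b.out)‖ * (‖f b‖ ^ 2 / φ b)) =
        ‖h.h (a.out⁻¹ * b.out) * f b‖ := by
      intro b
      have hb := hφ b
      rw [← Real.sqrt_mul (by positivity), norm_mul]
      have : ‖h.h (a.out⁻¹ * b.out)‖ * φ b * (‖h.h (a.out⁻¹ * b.out)‖ * (‖f b‖ ^ 2 / φ b)) =
          (‖h.h (a.out⁻¹ * b.out)‖ * ‖f b‖) ^ 2 := by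
        field_simp
      rw [this, Real.sqrt_sq (by positivity)]
    have e2 : ∀ b, Real.sqrt (‖h.h (a.out⁻¹ * b.out)‖ * φ b) ^ 2 =
        ‖h.h (a.out⁻¹ * b.out)‖ * φ b := by
      intro b
      have hb := hφ b
      rw [Real.sq_sqrt (by positivity)]
    have e3 : ∀ b, Real.sqrt (‖h.h (a.out⁻¹ * b.out)‖ * (‖f b‖ ^ 2 / φ b)) ^ 2 =
        ‖h.h (a.out⁻¹ * b.out)‖ * (‖f b‖ ^ 2 / φ b) := by
      intro b
      have hb := hφ b
      rw [Real.sq_sqrt (by positivity)]
    simp only [e1, e2, e3] at hcs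
    have h2 : ‖∑ b ∈ f.support, h.h (a.out⁻¹ * b.out) * f b‖ ^ 2 ≤
        (∑ b ∈ f.support, ‖h.h (a.out⁻¹ * b.out) * f b‖) ^ 2 := by
      have := norm_sum_le f.support fun b => h.h (a.out⁻¹ * b.out) * f b
      gcongr
    refine h2.trans (hcs.trans ?_)
    have h3 : 0 ≤ ∑ b ∈ f.support, ‖h.h (a.out⁻¹ * b.out)‖ * (‖f b‖ ^ 2 / φ b) :=
      Finset.sum_nonneg fun b _ => by
        have hb := hφ b
        positivity
    refine (mul_le_mul_of_nonneg_right (hrow a f.support) h3).trans (le_of_eq ?_)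
    rw [mul_assoc, Finset.mul_sum]
    congr 1
    refine Finset.sum_congr rfl fun b _ => ?_
    ring
  calc ∑ a ∈ S, ‖∑ b ∈ f.support, h.h (a.out⁻¹ * b.out) * f b‖ ^ 2
      ≤ ∑ a ∈ S, ρ * ∑ b ∈ f.support, ‖h.h (a.out⁻¹ * b.out)‖ * φ a * (‖f b‖ ^ 2 / φ b) :=
        Finset.sum_le_sum fun a _ => h1 a
    _ = ρ * ∑ b ∈ f.support, (∑ a ∈ S, ‖h.h (a.out⁻¹ * b.out)‖ * φ a) * (‖f b‖ ^ 2 / φ b) := by
        rw [← Finset.mul_sum, Finset.sum_comm]
        simp only [Finset.sum_mul]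
    _ ≤ ρ * ∑ b ∈ f.support, (ρ * φ b) * (‖f b‖ ^ 2 / φ b) := by
        refine mul_le_mul_of_nonneg_left (Finset.sum_le_sum fun b _ => ?_) ρ.2
        have hb := hφ b
        exact mul_le_mul_of_nonneg_right (hcol b S) (by positivity)
    _ = (ρ : ℝ) ^ 2 * ∑ b ∈ f.support, ‖f b‖ ^ 2 := by
        have e4 : ∑ b ∈ f.support, (ρ * φ b) * (‖f b‖ ^ 2 / φ b) =
            ρ * ∑ b ∈ f.support, ‖f b‖ ^ 2 := by
          rw [Finset.mul_sum]
          refine Finset.sum_congr rfl fun b _ => ?_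
          have hb := hφ b
          field_simp
        rw [e4]
        ring

lemma norm_le_of_local {h : HeckeFn X Γ x} {ρ : ℝ≥0} (hρ : LocalNormLe h ρ) : h.norm ≤ ρ :=
  csInf_le (OrderBot.bddBelow _) hρ

end Test

variable {F : Type} [Field F] (X : Places F) {N : ℕ} (x : X.V)

/-- GL_N(F) as a subgroup of itself. -/
abbrev Full (F : Type) [Field F] (N : ℕ) : Subgroup (GL (Fin N) F) := ⊤

/-- The matrix of an element of the full group. -/
def mat (g : Full F N) : Matrix (Fin N) (Fin N) F := ((g : GL (Fin N) F) : Matrix (Fin N) (Fin N) F)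

/-- The integral matrices at x whose determinant is a uniformiser. -/
def IndexOne (g : Matrix (Fin N) (Fin N) F) : Prop :=
  (∀ i j, X.val x (g i j) ≤ 1) ∧ X.val x g.det = WithZero.exp (-1 : ℤ)

lemma mat_mul (g h : Full F N) : mat (g * h) = mat g * mat h := rfl

lemma mem_K' {k : Full F N} : k ∈ X.K (Full F N) x ↔ IsK (X.val x) (mat k) :=
  mem_K_iff X x (Full F N) k

lemma indexOne_mul {g : Full F N} (hg : IndexOne X x (mat g)) {k k' : Full F N}
    (hk : k ∈ X.K (Full F N) x) (hk' : k' ∈ X.K (Full F N) x) :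
    IndexOne X x (mat (k * g * k')) := by
  rw [mem_K'] at hk hk'
  refine ⟨(hk.1.mul hg.1).mul hk'.1, ?_⟩
  rw [mat_mul, mat_mul, Matrix.det_mul, Matrix.det_mul, map_mul, map_mul, hk.2, hk'.2, hg.2, one_mul,
    mul_one]

lemma indexOne_iff {g k k' : Full F N} (hk : k ∈ X.K (Full F N) x) (hk' : k' ∈ X.K (Full F N) x) :
    IndexOne X x (mat (k * g * k')) ↔ IndexOne X x (mat g) := by
  constructor
  · intro h
    have := indexOne_mul X x h (inv_mem hk) (inv_mem hk')
    have e : k⁻¹ * (k * g * k') * k'⁻¹ = g := by group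
    rwa [e] at this
  · intro h
    exact indexOne_mul X x h hk hk'

/-- a matrix with nonzero determinant as an element of the group -/
noncomputable def toG (M : Matrix (Fin N) (Fin N) F) : Full F N :=
  open Classical in
  if h : M.det ≠ 0 then ⟨Matrix.GeneralLinearGroup.mkOfDetNeZero M h, trivial⟩ else 1

lemma mat_toG {M : Matrix (Fin N) (Fin N) F} (h : M.det ≠ 0) : mat (toG M) = M := by
  unfold toG
  rw [dif_pos h]
  rfl

lemma mat_injective : Function.Injective (mat : Full F N → Matrix (Fin N) (Fin N) F) :=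
  fun _ _ h => Subtype.ext (Units.ext h)

section Reps

variable {X x}
variable {C : Finset F} (hC : ∀ f, X.val x f ≤ 1 → ∃ c ∈ C, X.val x (f - c) < 1)
variable {p : F} (hp : X.val x p = WithZero.exp (-1 : ℤ))

include hp in
lemma p_ne : p ≠ 0 := by
  intro h0
  rw [h0, map_zero] at hp
  exact (WithZero.exp_ne_zero hp.symm)

include hp in
lemma mat_row (j : Fin N) (c : Fin N → F) : mat (toG (rowMat p j c)) = rowMat p j c :=
  mat_toG (by rw [det_rowMat]; exact p_ne hp)

include hp in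
lemma mat_col (j : Fin N) (c : Fin N → F) : mat (toG (colMat p j c)) = colMat p j c :=
  mat_toG (by rw [det_colMat]; exact p_ne hp)

include hC hp in
lemma row_coset [NeZero N] {g : Full F N} (hg : IndexOne X x (mat g)) :
    ∃ j : Fin N, ∃ c ∈ vecs C (fun i => j < i), ∃ k ∈ X.K (Full F N) x,
      g = toG (rowMat p j c) * k := by
  obtain ⟨j, c, hc, k, hk, e⟩ := row_rep (X.surj x) hC hg.1 hp hg.2
  have hk0 : k.det ≠ 0 := by
    intro h
    have := hk.2
    rw [h, map_zero] at this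
    exact zero_ne_one this
  refine ⟨j, c, hc, toG k, ?_, ?_⟩
  · rw [mem_K', mat_toG hk0]
    exact hk
  · apply mat_injective
    rw [mat_mul, mat_row hp, mat_toG hk0]
    exact e

include hC hp in
lemma col_coset [NeZero N] {g : Full F N} (hg : IndexOne X x (mat g)) :
    ∃ j : Fin N, ∃ c ∈ vecs C (fun i => i < j), ∃ k ∈ X.K (Full F N) x,
      g = k * toG (colMat p j c) := by
  obtain ⟨j, c, hc, k, hk, e⟩ := col_rep (X.surj x) hC hg.1 hp hg.2
  have hk0 : k.det ≠ 0 := by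
    intro h
    have := hk.2
    rw [h, map_zero] at this
    exact zero_ne_one this
  refine ⟨j, c, hc, toG k, ?_, ?_⟩
  · rw [mem_K', mat_toG hk0]
    exact hk
  · apply mat_injective
    rw [mat_mul, mat_col hp, mat_toG hk0]
    exact e

end Reps

open Classical in
/-- The Hecke function of the integral matrices whose determinant is a uniformiser. -/
noncomputable def std [NeZero N] (C : Finset F)
    (hC : ∀ f, X.val x f ≤ 1 → ∃ c ∈ C, X.val x (f - c) < 1) : HeckeFn X (Full F N) x where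
  h g := if IndexOne X x (mat g) then 1 else 0
  biinv k hk k' hk' g := by
    simp only [indexOne_iff X x hk hk']
  finL := by
    obtain ⟨p, hp⟩ := X.surj x (WithZero.exp (-1 : ℤ))
    refine (Set.finite_iUnion fun j : Fin N => ((vecs C (fun i => j < i)).finite_toSet.image
      (fun c => ((toG (rowMat p j c) : Full F N) : Full F N ⧸ X.K (Full F N) x)))).subset ?_
    intro a ha
    have ha' : IndexOne X x (mat a.out) := by
      by_contra h
      exact ha (if_neg h)
    obtain ⟨j, c, hc, k, hk, e⟩ := row_coset hC hp ha'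
    refine Set.mem_iUnion.2 ⟨j, c, hc, ?_⟩
    have h1 : ((a.out : Full F N) : Full F N ⧸ X.K (Full F N) x) = a := QuotientGroup.out_eq' a
    refine Eq.trans ?_ h1
    rw [e]
    exact (QuotientGroup.mk_mul_of_mem _ hk).symm
  finR := by
    obtain ⟨p, hp⟩ := X.surj x (WithZero.exp (-1 : ℤ))
    refine (Set.finite_iUnion fun j : Fin N => ((vecs C (fun i => i < j)).finite_toSet.image
      (fun c => (((toG (colMat p j c))⁻¹ : Full F N) : Full F N ⧸ X.K (Full F N) x)))).subset ?_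
    intro a ha
    have ha' : IndexOne X x (mat a.out⁻¹) := by
      by_contra h
      exact ha (if_neg h)
    obtain ⟨j, c, hc, k, hk, e⟩ := col_coset hC hp ha'
    refine Set.mem_iUnion.2 ⟨j, c, hc, ?_⟩
    have h1 : ((a.out : Full F N) : Full F N ⧸ X.K (Full F N) x) = a := QuotientGroup.out_eq' a
    refine Eq.trans ?_ h1
    have e2 : a.out = (toG (colMat p j c))⁻¹ * k⁻¹ := by
      rw [← _root_.inv_inj, e]
      group
    rw [e2]
    exact (QuotientGroup.mk_mul_of_mem _ (inv_mem hk)).symm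

end Pool.Agent.Helper99.SCH
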