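import Pool.Agent.Helper99.SCH.Alg

/-! The operator of the pairs of lattices of relative index q, on a subgroup of GL_N. -/

open Matrix
open scoped NNReal

namespace Pool.Agent.Helper99.SCH

open Pool.Agent.Helper80.AT

variable {F : Type} [Field F] (X : Places F) {N : ℕ} (x : X.V)

lemma local_mono {Γ : Subgroup (GL (Fin N) F)} {h : HeckeFn X Γ x} {ρ ρ' : ℝ≥0}
    (H : LocalNormLe h ρ) (hρ : ρ ≤ ρ') : LocalNormLe h ρ' := by
  intro f S
  refine (H f S).trans (mul_le_mul_of_nonneg_right ?_ (Finset.sum_nonneg fun _ _ => by positivity))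
  have : (ρ : ℝ) ≤ ρ' := by exact_mod_cast hρ
  exact pow_le_pow_left₀ ρ.2 this 2

/-- The function T*T, for T the Hecke function of the integral matrices whose determinant is a
uniformiser at x, on GL_N(F). -/
noncomputable def sqFn [NeZero N] (C : Finset F)
    (hC : ∀ f, X.val x f ≤ 1 → ∃ c ∈ C, X.val x (f - c) < 1) : HeckeFn X (Full F N) x :=
  hconv (std X (N := N) x C hC).star (std X (N := N) x C hC)

theorem sqFn_apply [NeZero N] (C : Finset F)
    (hC : ∀ f, X.val x f ≤ 1 → ∃ c ∈ C, X.val x (f - c) < 1) (g : Full F N) :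
    (sqFn X x C hC).h g =
      (Set.ncard {a : Full F N ⧸ X.K (Full F N) x |
        IndexOne X x (mat a.out⁻¹) ∧ IndexOne X x (mat (a.out⁻¹ * g))} : ℂ) := by
  classical
  have hfin : {a : Full F N ⧸ X.K (Full F N) x |
      IndexOne X x (mat a.out⁻¹) ∧ IndexOne X x (mat (a.out⁻¹ * g))}.Finite := by
    refine (std X (N := N) x C hC).finR.subset ?_
    intro a ha
    show (if IndexOne X x (mat a.out⁻¹) then (1 : ℂ) else 0) ≠ 0
    rw [if_pos ha.1]
    exact one_ne_zero
  show ∑ᶠ a : Full F N ⧸ X.K (Full F N) x, (starRingEnd ℂ) (if IndexOne X x (mat a.out⁻¹) then 1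
    else 0) * (if IndexOne X x (mat (a.out⁻¹ * g)) then 1 else 0) = _
  rw [finsum_eq_sum_of_support_subset (s := hfin.toFinset)]
  · rw [Finset.sum_congr rfl (g := fun _ => (1 : ℂ))]
    · rw [Finset.sum_const, nsmul_eq_mul, mul_one, Set.ncard_eq_toFinset_card _ hfin]
    · intro a ha
      rw [Set.Finite.mem_toFinset] at ha
      rw [if_pos ha.1, if_pos ha.2, map_one, mul_one]
  · intro a ha
    rw [Function.mem_support] at ha
    rw [Finset.mem_coe, Set.Finite.mem_toFinset]
    have h1 := left_ne_zero_of_mul ha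
    have h2 := right_ne_zero_of_mul ha
    constructor
    · by_contra h
      rw [if_neg h, map_zero] at h1
      exact h1 rfl
    · by_contra h
      rw [if_neg h] at h2
      exact h2 rfl

theorem sqFn_local [NeZero N] (C : Finset F)
    (hC : ∀ f, X.val x f ≤ 1 → ∃ c ∈ C, X.val x (f - c) < 1) :
    LocalNormLe (sqFn X (N := N) x C hC)
      ⟨(N : ℝ) ^ 2 * (C.card : ℝ) ^ ((N : ℝ) - 1), by positivity⟩ := by
  have h1 := std_local (X := X) (N := N) (x := x) C hC
  have h2 := hconv_local (star_local h1) h1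
  refine local_mono X x h2 (le_of_eq ?_)
  apply NNReal.coe_injective
  show N * (C.card : ℝ) ^ (((N : ℝ) - 1) / 2) * (N * (C.card : ℝ) ^ (((N : ℝ) - 1) / 2)) =
    (N : ℝ) ^ 2 * (C.card : ℝ) ^ ((N : ℝ) - 1)
  have hQ0 : (0 : ℝ) < C.card := by
    obtain ⟨c, hc, _⟩ := hC 0 (by simp)
    exact_mod_cast Finset.card_pos.2 ⟨c, hc⟩
  have e2 : (C.card : ℝ) ^ ((N : ℝ) - 1) = (C.card : ℝ) ^ (((N : ℝ) - 1) / 2) *
      (C.card : ℝ) ^ (((N : ℝ) - 1) / 2) := by
    rw [← Real.rpow_add hQ0]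
    congr 1
    ring
  rw [e2]
  ring

/-- On every subgroup of GL_N(F) the restriction of T*T has norm at most N² q^(N-1). -/
theorem sq_res_local [NeZero N] (C : Finset F)
    (hC : ∀ f, X.val x f ≤ 1 → ∃ c ∈ C, X.val x (f - c) < 1) (Γ : Subgroup (GL (Fin N) F)) :
    LocalNormLe (hres (le_top : Γ ≤ Full F N) (sqFn X (N := N) x C hC))
      ⟨(N : ℝ) ^ 2 * (C.card : ℝ) ^ ((N : ℝ) - 1), by positivity⟩ :=
  hres_local _ (sqFn_local X x C hC)

end Pool.Agent.Helper99.SCH
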