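import Pool.Agent.Helper99.SCH.SlVol

/-! The test family of SL_N: volume, radius. -/

open Matrix
open scoped NNReal

namespace Pool.Agent.Helper99.SCH

open Pool.Agent.Helper80.AT

variable {F : Type} [Field F] {X : Places F} {N : ℕ} {x : X.V}

lemma col_mul (p : F) (j : Fin N) (c : Fin N → F) (M : Matrix (Fin N) (Fin N) F) (i l : Fin N) :
    (colMat p j c * M) i l = if i = j then p * M j l else M i l - c i * M j l := by
  unfold colMat rowMat
  rw [Matrix.mul_apply]
  simp only [Matrix.transpose_apply, Matrix.updateRow_apply, Matrix.one_apply, ite_mul, one_mul,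
    zero_mul]
  rw [← Finset.add_sum_erase _ _ (Finset.mem_univ j), if_pos rfl]
  have e : ∀ m ∈ Finset.univ.erase j, (if m = j then if i = j then p * M m l else -c i * M m l else
      if m = i then M m l else 0) = if m = i then M m l else 0 := by
    intro m hm
    rw [if_neg (Finset.ne_of_mem_erase hm)]
  rw [Finset.sum_congr rfl e, Finset.sum_ite_eq']
  by_cases h : i = j
  · subst h
    simp
  · rw [if_neg h, if_neg h, if_pos (Finset.mem_erase.2 ⟨h, Finset.mem_univ i⟩)]
    ring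

/-- the last index -/
def lst (N : ℕ) [NeZero N] : Fin N := ⟨N - 1, Nat.sub_lt (Nat.pos_of_ne_zero (NeZero.ne N)) one_pos⟩

lemma lst_ne [NeZero N] (hN : 2 ≤ N) : lst N ≠ 0 := by
  intro h
  have h1 := congrArg Fin.val h
  have h2 : (lst N).val = N - 1 := rfl
  rw [h2, Fin.val_zero] at h1
  omega

/-- the matrices col⁻¹ row -/
noncomputable def cr [NeZero N] (p : F) (e : (Fin N → F) × (Fin N → F)) : Full F N :=
  (toG (colMat p (lst N) e.1))⁻¹ * toG (rowMat p 0 e.2)

lemma cr_eq [NeZero N] {p : F} (hp : X.val x p = WithZero.exp (-1 : ℤ))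
    (e : (Fin N → F) × (Fin N → F)) :
    colMat p (lst N) e.1 * mat (cr p e) = rowMat p 0 e.2 := by
  have h := congrArg mat (mul_inv_cancel_left (toG (colMat p (lst N) e.1)) (toG (rowMat p 0 e.2)))
  rw [mat_mul, mat_col hp, mat_row hp] at h
  exact h

lemma cr_det [NeZero N] {p : F} (hp : X.val x p = WithZero.exp (-1 : ℤ))
    (e : (Fin N → F) × (Fin N → F)) : (mat (cr p e)).det = 1 := by
  have h := congrArg Matrix.det (cr_eq hp e)
  rw [Matrix.det_mul, det_colMat, det_rowMat] at h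
  have h1 : p * (mat (cr p e)).det = p * 1 := by rw [h, mul_one]
  exact mul_left_cancel₀ (p_ne hp) h1

lemma cr_last [NeZero N] (hN : 2 ≤ N) {p : F} (hp : X.val x p = WithZero.exp (-1 : ℤ))
    (e : (Fin N → F) × (Fin N → F)) (l : Fin N) :
    mat (cr p e) (lst N) l = if l = lst N then p⁻¹ else 0 := by
  have h := congrFun (congrFun (cr_eq hp e) (lst N)) l
  rw [col_mul, if_pos rfl] at h
  unfold rowMat at h
  rw [Matrix.updateRow_ne (lst_ne hN), Matrix.one_apply] at h
  have hp0 := p_ne hp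
  split_ifs with h1
  · rw [if_pos h1.symm] at h
    exact (eq_inv_of_mul_eq_one_right h)
  · rw [if_neg (fun h2 => h1 h2.symm)] at h
    exact (mul_eq_zero.1 h).resolve_left hp0

lemma cr_other [NeZero N] (hN : 2 ≤ N) {p : F} (hp : X.val x p = WithZero.exp (-1 : ℤ))
    (e : (Fin N → F) × (Fin N → F)) (i l : Fin N) (hi : i ≠ lst N) :
    mat (cr p e) i l = rowMat p 0 e.2 i l + if l = lst N then e.1 i * p⁻¹ else 0 := by
  have h := congrFun (congrFun (cr_eq hp e) i) l
  rw [col_mul, if_neg hi, cr_last hN hp] at h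
  split_ifs at h ⊢ with h1
  · rw [← h]
    ring
  · rw [← h]
    ring

lemma cr_notK [NeZero N] (hN : 2 ≤ N) {p : F} (hp : X.val x p = WithZero.exp (-1 : ℤ))
    (e : (Fin N → F) × (Fin N → F)) : cr p e ∉ X.K (Full F N) x := by
  intro h
  rw [mem_K'] at h
  have h1 := h.1 (lst N) (lst N)
  rw [cr_last hN hp, if_pos rfl, map_inv₀, hp, ← WithZero.exp_neg, ← WithZero.exp_zero,
    WithZero.exp_le_exp] at h1
  norm_num at h1

/-- the cosets of the matrices cr are distinct -/
lemma cr_inj [NeZero N] (hN : 2 ≤ N) {C : Finset F} (hC : IsReps X x C) {p : F}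
    (hp : X.val x p = WithZero.exp (-1 : ℤ)) {e e' : (Fin N → F) × (Fin N → F)}
    (he1 : e.1 ∈ vecs C (fun i => i < lst N)) (he2 : e.2 ∈ vecs C (fun i => 0 < i))
    (he1' : e'.1 ∈ vecs C (fun i => i < lst N)) (he2' : e'.2 ∈ vecs C (fun i => 0 < i))
    (h : (cr p e)⁻¹ * cr p e' ∈ X.K (Full F N) x) : e = e' := by
  have hp0 := p_ne hp
  rw [mem_K'] at h
  set k := mat ((cr p e)⁻¹ * cr p e') with hk
  have h0 : mat (cr p e) * k = mat (cr p e') := by
    rw [hk, ← mat_mul, mul_inv_cancel_left]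
  have h1 : rowMat p 0 e.2 * k = colMat p (lst N) e.1 * mat (cr p e') := by
    rw [← h0, ← mul_assoc, cr_eq hp]
  have hlast : ∀ l, k (lst N) l = (1 : Matrix (Fin N) (Fin N) F) (lst N) l := by
    intro l
    have h2 := congrFun (congrFun h1 (lst N)) l
    rw [rowMat_mul, if_neg (lst_ne hN), col_mul, if_pos rfl, cr_last hN hp] at h2
    rw [h2, Matrix.one_apply]
    by_cases hl : l = lst N
    · rw [if_pos hl, if_pos hl.symm, mul_inv_cancel₀ hp0]
    · rw [if_neg hl, if_neg (fun h => hl h.symm), mul_zero]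
  have hrow : ∀ i l, i ≠ 0 → i ≠ lst N → k i l = (1 : Matrix (Fin N) (Fin N) F) i l +
      if l = lst N then (e'.1 i - e.1 i) * p⁻¹ else 0 := by
    intro i l hi0 hi
    have h2 := congrFun (congrFun h1 i) l
    rw [rowMat_mul, if_neg hi0, col_mul, if_neg hi, cr_last hN hp, cr_other hN hp e' i l hi] at h2
    have h3 : rowMat p 0 e'.2 i l = (1 : Matrix (Fin N) (Fin N) F) i l := by
      unfold rowMat
      rw [Matrix.updateRow_ne hi0]
    rw [h3] at h2
    rw [h2]
    split_ifs
    · ring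
    · ring
  have hc : ∀ i, i ≠ 0 → e.1 i = e'.1 i := by
    intro i hi0
    by_cases hi : i = lst N
    · rw [hi, (mem_vecs.1 he1 (lst N)).2 (lt_irrefl _), (mem_vecs.1 he1' (lst N)).2 (lt_irrefl _)]
    · refine (vecs_inj hC he1' he1 i ?_).symm
      have h2 := hrow i (lst N) hi0 hi
      rw [if_pos rfl, Matrix.one_apply_ne hi, zero_add] at h2
      refine small_of_mul hp (h.1 i (lst N)) ?_
      rw [h2]
      field_simp
  have hk1 : ∀ i l, i ≠ 0 → k i l = (1 : Matrix (Fin N) (Fin N) F) i l := by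
    intro i l hi0
    by_cases hi : i = lst N
    · rw [hi]
      exact hlast l
    · rw [hrow i l hi0 hi, hc i hi0, sub_self, zero_mul, ite_self, add_zero]
  have hzero : ∀ l, l ≠ 0 → p * k 0 l - e.2 l =
      -e'.2 l + if l = lst N then (e'.1 0 - e.1 0) * p⁻¹ else 0 := by
    intro l hl
    have h2 := congrFun (congrFun h1 0) l
    rw [rowMat_mul, if_pos rfl, col_mul, if_neg (lst_ne hN).symm, cr_last hN hp,
      cr_other hN hp e' 0 l (lst_ne hN).symm] at h2
    have h3 : rowMat p 0 e'.2 0 l = -e'.2 l := by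
      unfold rowMat
      rw [Matrix.updateRow_self, if_neg hl]
    have h4 : ∑ m ∈ Finset.univ.erase 0, e.2 m * k m l = e.2 l := by
      rw [Finset.sum_congr rfl fun m hm => by rw [hk1 m l (Finset.ne_of_mem_erase hm)]]
      rw [Finset.sum_eq_single l]
      · rw [Matrix.one_apply_eq, mul_one]
      · intro m _ hm
        rw [Matrix.one_apply_ne hm, mul_zero]
      · intro h
        exact absurd (Finset.mem_erase.2 ⟨hl, Finset.mem_univ l⟩) h
    rw [h3, h4] at h2
    rw [h2]
    split_ifs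
    · ring
    · ring
  have hc0 : e.1 0 = e'.1 0 := by
    refine (vecs_inj hC he1' he1 0 ?_).symm
    have h2 := hzero (lst N) (lst_ne hN)
    rw [if_pos rfl] at h2
    have h3 : X.val x (p * k 0 (lst N) - e.2 (lst N) + e'.2 (lst N)) ≤ 1 := by
      refine ((X.val x).map_add _ _).trans (max_le (((X.val x).map_sub _ _).trans (max_le ?_ ?_)) ?_)
      · rw [map_mul]
        refine mul_le_one' ?_ (h.1 0 (lst N))
        rw [hp]
        exact ((lt_one_iff _).2 le_rfl).le
      · exact vecs_int hC he2 _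
      · exact vecs_int hC he2' _
    refine small_of_mul hp h3 ?_
    rw [h2]
    field_simp
    ring
  have hc' : ∀ l, e.2 l = e'.2 l := by
    intro l
    by_cases hl : l = 0
    · rw [hl, (mem_vecs.1 he2 0).2 (lt_irrefl _), (mem_vecs.1 he2' 0).2 (lt_irrefl _)]
    · have h2 := hzero l hl
      rw [hc0, sub_self, zero_mul, ite_self, add_zero] at h2
      refine vecs_inj hC he2 he2' l (small_of_mul hp (h.1 0 l) ?_)
      linear_combination h2
  refine Prod.ext (funext fun i => ?_) (funext hc')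
  by_cases hi : i = 0
  · rw [hi]
    exact hc0
  · exact hc i hi

theorem adjFn_vol [NeZero N] (hN : 2 ≤ N) {Γ : Subgroup (GL (Fin N) F)} (hΓ : SLg F N ≤ Γ)
    {C : Finset F} (hC : IsReps X x C) :
    ((C.card : ℝ) ^ ((N : ℝ) - 1)) ^ 2 ≤ (adjFn X (N := N) x Γ C hC.surj).vol := by
  classical
  obtain ⟨p, hp⟩ := X.surj x (WithZero.exp (-1 : ℤ))
  let f : (Fin N → F) × (Fin N → F) → Γ := fun e =>
    ⟨((cr p e : Full F N) : GL (Fin N) F), hΓ (mem_SLg.2 (cr_det hp e))⟩
  have h1 := vol_ge_card (adjFn X (N := N) x Γ C hC.surj)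
    (vecs C (fun i : Fin N => i < lst N) ×ˢ vecs C (fun i : Fin N => 0 < i)) f (by
      intro e he
      rw [Finset.mem_product] at he
      have hK : f e ∉ X.K Γ x := fun hk => cr_notK hN hp e hk
      unfold adjFn
      rw [offK_notMem hK]
      exact sq_h_pos hC hp he.1 he.2 _ _) (by
      intro e he e' he' hk
      rw [Finset.mem_product] at he he'
      exact cr_inj hN hC hp he.1 he.2 he'.1 he'.2 hk)
  rw [Finset.card_product, card_vecs, card_vecs, card_lt, card_gt] at h1
  have h2 : ((lst N : Fin N) : ℕ) = N - 1 := rfl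
  rw [h2, Fin.val_zero, Nat.sub_zero] at h1
  refine le_trans (le_of_eq ?_) h1
  have h3 : ((C.card : ℝ) ^ ((N : ℝ) - 1)) = (C.card : ℝ) ^ (N - 1) := by
    rw [← Real.rpow_natCast, Nat.cast_sub (by omega), Nat.cast_one]
  rw [h3, pow_two]
  push_cast
  rfl

lemma size_sq [NeZero N] {C : Finset F}
    {hC : ∀ f, X.val x f ≤ 1 → ∃ c ∈ C, X.val x (f - c) < 1} {g : Full F N}
    (hg : (sqFn X x C hC).h g ≠ 0) : X.size x (g : GL (Fin N) F) ≤ 1 := by
  rw [sqFn_apply] at hg
  have hne : {a : Full F N ⧸ X.K (Full F N) x |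
      IndexOne X x (mat a.out⁻¹) ∧ IndexOne X x (mat (a.out⁻¹ * g))}.Nonempty := by
    by_contra h
    rw [Set.not_nonempty_iff_eq_empty] at h
    rw [h, Set.ncard_empty] at hg
    exact hg (by norm_num)
  obtain ⟨a, h1, h2⟩ := hne
  set b : Full F N := a.out⁻¹ with hb
  set d : Full F N := a.out⁻¹ * g with hd
  have e1 : (g : GL (Fin N) F) = ((b : Full F N) : GL (Fin N) F)⁻¹ * ((d : Full F N) : GL (Fin N) F) := by
    have : g = b⁻¹ * d := by
      rw [hb, hd]
      group
    rw [this]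
    rfl
  have hb1 := (X.size_le_iff x _ 1).1 (size_indexOne h1)
  have hd1 := (X.size_le_iff x _ 1).1 (size_indexOne h2)
  rw [X.size_le_iff]
  constructor
  · intro i j
    rw [e1, Units.val_mul, Matrix.mul_apply]
    refine X.pole_sum_le _ x _ 1 fun m _ => (X.pole_mul_le x _ _).trans ?_
    have h3 := hb1.2 i m
    have h4 : X.pole x (((d : Full F N) : GL (Fin N) F) m j) ≤ 0 := by
      rw [pole_zero_iff]
      exact h2.1 m j
    omega
  · intro i j
    rw [e1, _root_.mul_inv_rev, inv_inv, Units.val_mul, Matrix.mul_apply]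
    refine X.pole_sum_le _ x _ 1 fun m _ => (X.pole_mul_le x _ _).trans ?_
    have h3 := hd1.2 i m
    have h4 : X.pole x (((b : Full F N) : GL (Fin N) F) m j) ≤ 0 := by
      rw [pole_zero_iff]
      exact h1.1 m j
    omega

/-- The test family of the groups Γ between SL_N(F) and GL_N(F), N ≥ 2, with constant
(N² + N)². -/
theorem adj_test [NeZero N] (hN : 2 ≤ N) {Γ : Subgroup (GL (Fin N) F)} (hΓ : SLg F N ≤ Γ)
    (C : X.V → Finset F) (hC : ∀ x, IsReps X x (C x))
    (B : Finset X.V) (D : ℕ) (hD : ∀ x ∈ B, X.deg x ≤ D) :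
    TestFamily B (fun x => adjFn X (N := N) x Γ (C x) (hC x).surj) (((N : ℝ) ^ 2 + N) ^ 2) D where
  vol_pos x _ := by
    refine lt_of_lt_of_le ?_ (adjFn_vol hN hΓ (hC x))
    have hQ0 : (0 : ℝ) < (C x).card := by
      obtain ⟨c, hc, _⟩ := (hC x).surj 0 (by simp)
      exact_mod_cast Finset.card_pos.2 ⟨c, hc⟩
    positivity
  norm_le x _ := by
    have h1 := adjFn_norm (X := X) (N := N) (x := x) Γ (C x) (hC x).surj
    calc ((adjFn X (N := N) x Γ (C x) (hC x).surj).norm : ℝ) ^ 2
        ≤ (((N : ℝ) ^ 2 + N) * ((C x).card : ℝ) ^ ((N : ℝ) - 1)) ^ 2 :=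
          pow_le_pow_left₀ (NNReal.coe_nonneg _) h1 2
      _ = ((N : ℝ) ^ 2 + N) ^ 2 * (((C x).card : ℝ) ^ ((N : ℝ) - 1)) ^ 2 := by rw [mul_pow]
      _ ≤ _ := mul_le_mul_of_nonneg_left (adjFn_vol hN hΓ (hC x)) (by positivity)
  size_le x hx := by
    have h1 : (adjFn X (N := N) x Γ (C x) (hC x).surj).rad ≤ 1 := by
      refine rad_le_of _ 1 fun g hg => ?_
      have hK : g ∉ X.K Γ x := fun hk => hg (offK_mem hk)
      have hg' : (offK (hres (le_top : Γ ≤ Full F N) (sqFn X x (C x) (hC x).surj))).h g ≠ 0 :=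
        hg
      rw [offK_notMem hK] at hg'
      exact size_sq (C := C x) (hC := (hC x).surj) hg'
    calc X.deg x * (adjFn X (N := N) x Γ (C x) (hC x).surj).rad ≤ X.deg x * 1 :=
          Nat.mul_le_mul_left _ h1
      _ ≤ D := by rw [mul_one]; exact hD x hx

/-- The value on K_x is 0. -/
theorem adj_K [NeZero N] {Γ : Subgroup (GL (Fin N) F)} (C : X.V → Finset F)
    (hC : ∀ x, IsReps X x (C x)) (x : X.V) (g : Γ) (hg : g ∈ X.K Γ x) :
    (adjFn X (N := N) x Γ (C x) (hC x).surj).h g = 0 := offK_mem hg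

end Pool.Agent.Helper99.SCH
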