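import Pool.Agent.Helper99.SCH.Vol

/-! The test family of SL_N. -/

open Matrix
open scoped NNReal

namespace Pool.Agent.Helper99.SCH

open Pool.Agent.Helper80.AT

variable {F : Type} [Field F] {X : Places F} {N : ℕ} {x : X.V}

section OffK

variable {Γ : Subgroup (GL (Fin N) F)}

open Classical in
/-- The function h with its value on K_x replaced by 0. -/
noncomputable def offK (h : HeckeFn X Γ x) : HeckeFn X Γ x where
  h g := if g ∈ X.K Γ x then 0 else h.h g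
  biinv k hk k' hk' g := by
    have e : k * g * k' ∈ X.K Γ x ↔ g ∈ X.K Γ x := by
      rw [Subgroup.mul_mem_cancel_right _ hk', Subgroup.mul_mem_cancel_left _ hk]
    simp only [e, h.biinv k hk k' hk' g]
  finL := by
    refine h.finL.subset fun a ha h0 => ha ?_
    show (if a.out ∈ X.K Γ x then 0 else h.h a.out) = 0
    rw [h0, ite_self]
  finR := by
    refine h.finR.subset fun a ha h0 => ha ?_
    show (if a.out⁻¹ ∈ X.K Γ x then 0 else h.h a.out⁻¹) = 0
    rw [h0, ite_self]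

lemma offK_mem {h : HeckeFn X Γ x} {g : Γ} (hg : g ∈ X.K Γ x) : (offK h).h g = 0 := if_pos hg

lemma offK_notMem {h : HeckeFn X Γ x} {g : Γ} (hg : g ∉ X.K Γ x) : (offK h).h g = h.h g :=
  if_neg hg

lemma out_mem_iff (a b : Γ ⧸ X.K Γ x) : a.out⁻¹ * b.out ∈ X.K Γ x ↔ a = b := by
  rw [← QuotientGroup.eq, QuotientGroup.out_eq', QuotientGroup.out_eq']

theorem offK_local {h : HeckeFn X Γ x} {ρ : ℝ≥0} (H : LocalNormLe h ρ) :
    LocalNormLe (offK h) (ρ + ‖h.h 1‖₊) := by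
  classical
  intro f S
  set c := h.h 1 with hc
  have hK : ∀ g ∈ X.K Γ x, h.h g = c := by
    intro g hg
    have := h_right_inv h hg 1
    rwa [one_mul] at this
  have e1 : ∀ a : Γ ⧸ X.K Γ x, ∑ b ∈ f.support, (offK h).h (a.out⁻¹ * b.out) * f b =
      ∑ b ∈ f.support, h.h (a.out⁻¹ * b.out) * f b - c * f a := by
    intro a
    have e2 : ∀ b : Γ ⧸ X.K Γ x, (offK h).h (a.out⁻¹ * b.out) * f b =
        h.h (a.out⁻¹ * b.out) * f b - (if a = b then c * f b else 0) := by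
      intro b
      by_cases hab : a = b
      · rw [offK_mem ((out_mem_iff a b).2 hab), hK _ ((out_mem_iff a b).2 hab), if_pos hab]
        ring
      · rw [offK_notMem (fun hh => hab ((out_mem_iff a b).1 hh)), if_neg hab, sub_zero]
    rw [Finset.sum_congr rfl fun b _ => e2 b, Finset.sum_sub_distrib, Finset.sum_ite_eq]
    congr 1
    split_ifs with ha
    · rfl
    · rw [Finsupp.notMem_support_iff.1 ha, mul_zero]
  simp only [e1]
  set u : (Γ ⧸ X.K Γ x) → ℂ := fun a => ∑ b ∈ f.support, h.h (a.out⁻¹ * b.out) * f b with hu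
  set B : ℝ := ∑ b ∈ f.support, ‖f b‖ ^ 2 with hB
  have hB0 : 0 ≤ B := Finset.sum_nonneg fun _ _ => by positivity
  have hfS : ∑ a ∈ S, ‖f a‖ ^ 2 ≤ B := by
    rw [hB, ← Finset.sum_subset (Finset.inter_subset_left (s₁ := S) (s₂ := f.support))]
    · exact Finset.sum_le_sum_of_subset_of_nonneg Finset.inter_subset_right fun _ _ _ => by
        positivity
    · intro a ha ha'
      have : f a = 0 := by
        by_contra h0
        exact ha' (Finset.mem_inter.2 ⟨ha, Finsupp.mem_support_iff.2 h0⟩)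
      rw [this, norm_zero, zero_pow two_ne_zero]
  have hA := H f S
  have hcs := Finset.sum_mul_sq_le_sq_mul_sq S (fun a => ‖u a‖) (fun a => ‖f a‖)
  set A : ℝ := ∑ a ∈ S, ‖u a‖ ^ 2 with hA'
  set B' : ℝ := ∑ a ∈ S, ‖f a‖ ^ 2 with hB'
  set M : ℝ := ∑ a ∈ S, ‖u a‖ * ‖f a‖ with hM
  have hA0 : 0 ≤ A := Finset.sum_nonneg fun _ _ => by positivity
  have hM0 : 0 ≤ M := Finset.sum_nonneg fun _ _ => by positivity
  have hB'0 : 0 ≤ B' := Finset.sum_nonneg fun _ _ => by positivity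
  have hM2 : M ≤ ρ * B := by
    have h1 : M ^ 2 ≤ (ρ * B) ^ 2 := by
      calc M ^ 2 ≤ A * B' := hcs
        _ ≤ ((ρ : ℝ) ^ 2 * B) * B := mul_le_mul hA hfS hB'0 (by positivity)
        _ = (ρ * B) ^ 2 := by ring
    exact le_of_sq_le_sq h1 (by positivity)
  have h2 : ∀ a ∈ S, ‖u a - c * f a‖ ^ 2 ≤
      ‖u a‖ ^ 2 + 2 * ‖c‖ * (‖u a‖ * ‖f a‖) + ‖c‖ ^ 2 * ‖f a‖ ^ 2 := by
    intro a _
    have h3 : ‖u a - c * f a‖ ≤ ‖u a‖ + ‖c‖ * ‖f a‖ := by
      refine (norm_sub_le _ _).trans (le_of_eq ?_)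
      rw [norm_mul]
    calc ‖u a - c * f a‖ ^ 2 ≤ (‖u a‖ + ‖c‖ * ‖f a‖) ^ 2 := pow_le_pow_left₀ (norm_nonneg _) h3 2
      _ = _ := by ring
  calc ∑ a ∈ S, ‖u a - c * f a‖ ^ 2
      ≤ ∑ a ∈ S, (‖u a‖ ^ 2 + 2 * ‖c‖ * (‖u a‖ * ‖f a‖) + ‖c‖ ^ 2 * ‖f a‖ ^ 2) :=
        Finset.sum_le_sum h2
    _ = A + 2 * ‖c‖ * M + ‖c‖ ^ 2 * B' := by
        rw [Finset.sum_add_distrib, Finset.sum_add_distrib, ← Finset.mul_sum, ← Finset.mul_sum]
    _ ≤ (ρ : ℝ) ^ 2 * B + 2 * ‖c‖ * (ρ * B) + ‖c‖ ^ 2 * B := by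
        gcongr
    _ = ((ρ + ‖c‖₊ : ℝ≥0) : ℝ) ^ 2 * B := by
        push_cast
        ring

end OffK

/-- SL_N(F) as a subgroup of GL_N(F). -/
abbrev SLg (F : Type) [Field F] (N : ℕ) : Subgroup (GL (Fin N) F) :=
  (Matrix.GeneralLinearGroup.det : GL (Fin N) F →* Fˣ).ker

lemma mem_SLg {g : GL (Fin N) F} :
    g ∈ SLg F N ↔ (g : Matrix (Fin N) (Fin N) F).det = 1 := by
  rw [MonoidHom.mem_ker, Units.ext_iff]
  rfl

variable (X x) in
/-- The Hecke function at x, on a subgroup of GL_N(F), whose value is 0 on K_x and, outside K_x, the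
number of cosets a of GL_N(F) with a⁻¹ and a⁻¹g integral with determinant a uniformiser. For SL_N it
is 1 on K diag(π, 1, .., 1, π⁻¹) K and 0 elsewhere. -/
noncomputable def adjFn [NeZero N] (Γ : Subgroup (GL (Fin N) F)) (C : Finset F)
    (hC : ∀ f, X.val x f ≤ 1 → ∃ c ∈ C, X.val x (f - c) < 1) : HeckeFn X Γ x :=
  offK (hres (le_top : Γ ≤ Full F N) (sqFn X x C hC))

/-- the number of superlattices of index q is at most N Q^(N-1) -/
lemma sqFn_one [NeZero N] (C : Finset F)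
    (hC : ∀ f, X.val x f ≤ 1 → ∃ c ∈ C, X.val x (f - c) < 1) :
    ‖(sqFn X (N := N) x C hC).h 1‖ ≤ N * (C.card : ℝ) ^ ((N : ℝ) - 1) := by
  classical
  obtain ⟨p, hp⟩ := X.surj x (WithZero.exp (-1 : ℤ))
  have hN : 0 < N := Nat.pos_of_ne_zero (NeZero.ne N)
  have hQ1 : 1 ≤ C.card := by
    obtain ⟨c, hc, _⟩ := hC 0 (by simp)
    exact Finset.card_pos.2 ⟨c, hc⟩
  rw [sqFn_apply, Complex.norm_natCast]
  set A := {a : Full F N ⧸ X.K (Full F N) x |
    IndexOne X x (mat a.out⁻¹) ∧ IndexOne X x (mat (a.out⁻¹ * 1))} with hA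
  have hsub : A ⊆ ((Finset.univ.sigma fun j : Fin N => vecs C (fun i => i < j)).image
      (fun e => (((toG (colMat p e.1 e.2))⁻¹ : Full F N) : Full F N ⧸ X.K (Full F N) x)) :
        Finset (Full F N ⧸ X.K (Full F N) x)) := by
    intro a ha
    obtain ⟨j, c, hc, k, hk, e⟩ := col_coset hC hp ha.1
    rw [Finset.mem_coe]
    refine Finset.mem_image.2 ⟨⟨j, c⟩, Finset.mem_sigma.2 ⟨Finset.mem_univ _, hc⟩, ?_⟩
    have h1 : ((a.out : Full F N) : Full F N ⧸ X.K (Full F N) x) = a := QuotientGroup.out_eq' a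
    refine Eq.trans ?_ h1
    have e2 : a.out = (toG (colMat p j c))⁻¹ * k⁻¹ := by
      rw [← _root_.inv_inj, e]
      group
    rw [e2]
    exact (QuotientGroup.mk_mul_of_mem _ (inv_mem hk)).symm
  have h1 : A.ncard ≤ ∑ j : Fin N, C.card ^ (j : ℕ) := by
    calc A.ncard ≤ _ := Set.ncard_le_ncard hsub (Finset.finite_toSet _)
      _ = _ := Set.ncard_coe_finset _
      _ ≤ _ := Finset.card_image_le
      _ = _ := by
        rw [Finset.card_sigma]
        exact Finset.sum_congr rfl fun j _ => by rw [card_vecs, card_lt]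
  have h2 : ∑ j : Fin N, C.card ^ (j : ℕ) ≤ N * C.card ^ (N - 1) := by
    calc ∑ j : Fin N, C.card ^ (j : ℕ) ≤ ∑ _j : Fin N, C.card ^ (N - 1) :=
          Finset.sum_le_sum fun j _ => Nat.pow_le_pow_right hQ1 (by omega)
      _ = _ := by rw [Finset.sum_const, Finset.card_univ, Fintype.card_fin, smul_eq_mul]
  have h3 : (A.ncard : ℝ) ≤ N * (C.card : ℝ) ^ (N - 1) := by exact_mod_cast h1.trans h2
  refine h3.trans (le_of_eq ?_)
  congr 1
  rw [← Real.rpow_natCast]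
  congr 1
  rw [Nat.cast_sub hN]
  push_cast
  rfl

theorem adjFn_norm [NeZero N] (Γ : Subgroup (GL (Fin N) F)) (C : Finset F)
    (hC : ∀ f, X.val x f ≤ 1 → ∃ c ∈ C, X.val x (f - c) < 1) :
    ((adjFn X (N := N) x Γ C hC).norm : ℝ) ≤ ((N : ℝ) ^ 2 + N) * (C.card : ℝ) ^ ((N : ℝ) - 1) := by
  have h1 := offK_local (sq_res_local X x C hC Γ)
  have h2 : ((adjFn X (N := N) x Γ C hC).norm : ℝ) ≤ (N : ℝ) ^ 2 * (C.card : ℝ) ^ ((N : ℝ) - 1) +
      ‖(sqFn X (N := N) x C hC).h 1‖ := norm_le_of_local h1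
  have h3 := sqFn_one (X := X) (N := N) (x := x) C hC
  linarith

/-- entries of g = col⁻¹ row -/
lemma sq_h_pos [NeZero N] {C : Finset F} (hC : IsReps X x C) {p : F}
    (hp : X.val x p = WithZero.exp (-1 : ℤ)) {A A' : Fin N → Prop} [DecidablePred A]
    [DecidablePred A'] {c c' : Fin N → F} (hc : c ∈ vecs C A) (hc' : c' ∈ vecs C A')
    (j j' : Fin N) :
    1 ≤ ‖(sqFn X x C hC.surj).h ((toG (colMat p j c))⁻¹ * toG (rowMat p j' c'))‖ := by
  classical
  rw [sqFn_apply, Complex.norm_natCast]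
  set g := (toG (colMat p j c))⁻¹ * toG (rowMat p j' c') with hg
  set a : Full F N ⧸ X.K (Full F N) x := (((toG (colMat p j c))⁻¹ : Full F N) :
    Full F N ⧸ X.K (Full F N) x) with ha
  have hfin : {a : Full F N ⧸ X.K (Full F N) x |
      IndexOne X x (mat a.out⁻¹) ∧ IndexOne X x (mat (a.out⁻¹ * g))}.Finite := by
    refine (std X (N := N) x C hC.surj).finR.subset ?_
    intro a ha
    show (if IndexOne X x (mat a.out⁻¹) then (1 : ℂ) else 0) ≠ 0
    rw [if_pos ha.1]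
    exact one_ne_zero
  obtain ⟨k, hk, e⟩ := out_eq X x ((toG (colMat p j c))⁻¹ : Full F N)
  have hmem : a ∈ {a : Full F N ⧸ X.K (Full F N) x |
      IndexOne X x (mat a.out⁻¹) ∧ IndexOne X x (mat (a.out⁻¹ * g))} := by
    rw [Set.mem_ofPred_eq, ha, e]
    constructor
    · have e2 : ((toG (colMat p j c))⁻¹ * k)⁻¹ = k⁻¹ * toG (colMat p j c) * 1 := by group
      rw [e2]
      exact indexOne_mul X x (indexOne_col hC hc hp j) (inv_mem hk) (one_mem _)
    · have e2 : ((toG (colMat p j c))⁻¹ * k)⁻¹ * g = k⁻¹ * toG (rowMat p j' c') * 1 := by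
        rw [hg]
        group
      rw [e2]
      exact indexOne_mul X x (indexOne_row hC hc' hp j') (inv_mem hk) (one_mem _)
  exact_mod_cast (Set.ncard_pos hfin).2 ⟨a, hmem⟩

lemma mul_col (p : F) (j : Fin N) (c : Fin N → F) (k : Matrix (Fin N) (Fin N) F) (i l : Fin N) :
    (k * colMat p j c) i l = if l = j then p * k i j - ∑ m ∈ Finset.univ.erase j, c m * k i m
      else k i l := by
  have h := rowMat_mul p j c kᵀ l i
  unfold colMat
  rw [← Matrix.transpose_apply (k * (rowMat p j c)ᵀ), Matrix.transpose_mul,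
    Matrix.transpose_transpose, h]
  rfl

end Pool.Agent.Helper99.SCH
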