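import Pool.Agent.Helper99.SCH.Sl
import Pool.Agent.Helper80.AT.ManyFn

/-! The test family of GL_N. -/

open Matrix
open scoped NNReal

namespace Pool.Agent.Helper99.SCH

open Pool.Agent.Helper80.AT

variable {F : Type} [Field F] {X : Places F} {N : ℕ} {x : X.V}

variable (X x) in
/-- C is a system of representatives of the residue field at x. -/
structure IsReps (C : Finset F) : Prop where
  int : ∀ c ∈ C, X.val x c ≤ 1
  surj : ∀ f, X.val x f ≤ 1 → ∃ c ∈ C, X.val x (f - c) < 1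
  inj : ∀ c ∈ C, ∀ c' ∈ C, X.val x (c - c') < 1 → c = c'

lemma vecs_int {C : Finset F} (hC : IsReps X x C) {A : Fin N → Prop} [DecidablePred A]
    {c : Fin N → F} (hc : c ∈ vecs C A) (i : Fin N) : X.val x (c i) ≤ 1 := by
  by_cases h : A i
  · exact hC.int _ ((mem_vecs.1 hc i).1 h)
  · rw [(mem_vecs.1 hc i).2 h, map_zero]
    exact zero_le_one

lemma vecs_inj {C : Finset F} (hC : IsReps X x C) {A : Fin N → Prop} [DecidablePred A]
    {c d : Fin N → F} (hc : c ∈ vecs C A) (hd : d ∈ vecs C A) (i : Fin N)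
    (h : X.val x (c i - d i) < 1) : c i = d i := by
  by_cases hA : A i
  · exact hC.inj _ ((mem_vecs.1 hc i).1 hA) _ ((mem_vecs.1 hd i).1 hA) h
  · rw [(mem_vecs.1 hc i).2 hA, (mem_vecs.1 hd i).2 hA]

lemma int_rowMat {C : Finset F} (hC : IsReps X x C) {A : Fin N → Prop} [DecidablePred A]
    {c : Fin N → F} (hc : c ∈ vecs C A) {p : F} (hp : X.val x p = WithZero.exp (-1 : ℤ))
    (j : Fin N) : IsInt (X.val x) (rowMat p j c) := by
  intro i l
  unfold rowMat
  rw [Matrix.updateRow_apply]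
  split_ifs
  · rw [hp]
    exact ((lt_one_iff _).2 le_rfl).le
  · rw [Valuation.map_neg]
    exact vecs_int hC hc l
  · exact IsInt.one i l

lemma indexOne_row {C : Finset F} (hC : IsReps X x C) {A : Fin N → Prop} [DecidablePred A]
    {c : Fin N → F} (hc : c ∈ vecs C A) {p : F} (hp : X.val x p = WithZero.exp (-1 : ℤ))
    (j : Fin N) : IndexOne X x (mat (toG (rowMat p j c))) := by
  rw [mat_row hp]
  exact ⟨int_rowMat hC hc hp j, by rw [det_rowMat, hp]⟩

lemma indexOne_col {C : Finset F} (hC : IsReps X x C) {A : Fin N → Prop} [DecidablePred A]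
    {c : Fin N → F} (hc : c ∈ vecs C A) {p : F} (hp : X.val x p = WithZero.exp (-1 : ℤ))
    (j : Fin N) : IndexOne X x (mat (toG (colMat p j c))) := by
  rw [mat_col hp]
  exact ⟨(int_rowMat hC hc hp j).transpose, by rw [det_colMat, hp]⟩

lemma small_of_mul {p f k : F} (hp : X.val x p = WithZero.exp (-1 : ℤ)) (hk : X.val x k ≤ 1)
    (h : p * k = f) : X.val x f < 1 := by
  rw [← h, map_mul, hp, lt_one_iff]
  calc WithZero.exp (-1 : ℤ) * X.val x k ≤ WithZero.exp (-1 : ℤ) * 1 := mul_le_mul_right hk _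
    _ = _ := mul_one _

/-- the cosets of the matrices rowMat are distinct -/
lemma row_inj {C : Finset F} (hC : IsReps X x C) {j : Fin N} {c d : Fin N → F}
    (hc : c ∈ vecs C (fun i => j < i)) (hd : d ∈ vecs C (fun i => j < i)) {p : F}
    (hp : X.val x p = WithZero.exp (-1 : ℤ)) {k : Matrix (Fin N) (Fin N) F}
    (hk : IsInt (X.val x) k) (h : rowMat p j d = rowMat p j c * k) : c = d := by
  have h1 : ∀ i l, i ≠ j → k i l = (1 : Matrix (Fin N) (Fin N) F) i l := by
    intro i l hi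
    have h2 := congrFun (congrFun h i) l
    rw [rowMat_mul, if_neg hi] at h2
    rw [← h2]
    unfold rowMat
    rw [Matrix.updateRow_ne hi]
  funext l
  by_cases hl : l = j
  · subst hl
    rw [(mem_vecs.1 hc l).2 (lt_irrefl l), (mem_vecs.1 hd l).2 (lt_irrefl l)]
  · have h2 := congrFun (congrFun h j) l
    rw [rowMat_mul, if_pos rfl] at h2
    have h3 : ∑ m ∈ Finset.univ.erase j, c m * k m l = c l := by
      rw [Finset.sum_congr rfl fun m hm => by rw [h1 m l (Finset.ne_of_mem_erase hm)]]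
      rw [Finset.sum_eq_single l]
      · rw [Matrix.one_apply_eq, mul_one]
      · intro m _ hm
        rw [Matrix.one_apply_ne hm, mul_zero]
      · intro h
        exact absurd (Finset.mem_erase.2 ⟨hl, Finset.mem_univ l⟩) h
    have h4 : rowMat p j d j l = -d l := by
      unfold rowMat
      rw [Matrix.updateRow_self, if_neg hl]
    rw [h3, h4] at h2
    refine vecs_inj hC hc hd l (small_of_mul hp (hk j l) ?_)
    linear_combination -h2

lemma size_indexOne {g : Full F N} (hg : IndexOne X x (mat g)) :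
    X.size x (g : GL (Fin N) F) ≤ 1 := by
  rw [X.size_le_iff]
  constructor
  · intro i j
    refine le_trans ?_ (Nat.zero_le 1)
    rw [pole_zero_iff]
    exact hg.1 i j
  · intro i j
    rw [X.pole_le_iff]
    have h3 := IsInt.adj (v := X.val x) hg.1
    rw [Matrix.coe_units_inv, Matrix.inv_def, Matrix.smul_apply, smul_eq_mul, map_mul]
    have h4 : X.val x (Ring.inverse ((g : GL (Fin N) F) : Matrix (Fin N) (Fin N) F).det) =
        WithZero.exp (1 : ℤ) := by
      have h5 : X.val x ((g : GL (Fin N) F) : Matrix (Fin N) (Fin N) F).det =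
        WithZero.exp (-1 : ℤ) := hg.2
      rw [Ring.inverse_eq_inv', map_inv₀, h5, ← WithZero.exp_neg]
      simp
    rw [h4]
    calc WithZero.exp (1 : ℤ) * X.val x (((g : GL (Fin N) F) : Matrix (Fin N) (Fin N) F).adjugate i j)
        ≤ WithZero.exp (1 : ℤ) * 1 := mul_le_mul_right (h3 i j) _
      _ = _ := by simp

lemma rad_le_of {Γ : Subgroup (GL (Fin N) F)} (h : HeckeFn X Γ x) (n : ℕ)
    (hn : ∀ g : Γ, h.h g ≠ 0 → X.size x (g : GL (Fin N) F) ≤ n) : h.rad ≤ n := by
  unfold HeckeFn.rad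
  refine Finset.sup_le fun a ha => hn _ ?_
  simpa using ha

lemma std_h [NeZero N] (C : Finset F) (hC : ∀ f, X.val x f ≤ 1 → ∃ c ∈ C, X.val x (f - c) < 1)
    {g : Full F N} (hg : IndexOne X x (mat g)) : (std X x C hC).h g = 1 := if_pos hg

lemma std_h' [NeZero N] (C : Finset F) (hC : ∀ f, X.val x f ≤ 1 → ∃ c ∈ C, X.val x (f - c) < 1)
    {g : Full F N} (hg : (std X x C hC).h g ≠ 0) : IndexOne X x (mat g) := by
  by_contra h
  exact hg (if_neg h)

/-- the number of cosets -/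
lemma vol_ge_card {Γ : Subgroup (GL (Fin N) F)} (h : HeckeFn X Γ x) {I : Type} (E : Finset I)
    (f : I → Γ) (hf : ∀ e ∈ E, 1 ≤ ‖h.h (f e)‖)
    (hinj : ∀ e ∈ E, ∀ e' ∈ E, (f e)⁻¹ * f e' ∈ X.K Γ x → e = e') : (E.card : ℝ) ≤ h.vol := by
  classical
  rw [h.vol_eq]
  have h1 : ∀ e ∈ E, h.h ((f e : Γ ⧸ X.K Γ x)).out = h.h (f e) := fun e _ => h_out h (f e)
  have h2 : (E.image fun e => (f e : Γ ⧸ X.K Γ x)) ⊆ (h.finL).toFinset := by
    intro a ha
    obtain ⟨e, he, rfl⟩ := Finset.mem_image.1 ha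
    rw [Set.Finite.mem_toFinset]
    show h.h ((f e : Γ ⧸ X.K Γ x)).out ≠ 0
    rw [h1 e he]
    intro h0
    have := hf e he
    rw [h0, norm_zero] at this
    exact absurd this (by norm_num)
  have h3 : (E.image fun e => (f e : Γ ⧸ X.K Γ x)).card = E.card := by
    refine Finset.card_image_of_injOn ?_
    intro e he e' he' h4
    exact hinj e he e' he' (QuotientGroup.eq.1 h4)
  calc (E.card : ℝ) = ∑ a ∈ E.image fun e => (f e : Γ ⧸ X.K Γ x), (1 : ℝ) := by
        rw [Finset.sum_const, h3, nsmul_eq_mul, mul_one]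
    _ ≤ ∑ a ∈ E.image fun e => (f e : Γ ⧸ X.K Γ x), ‖h.h a.out‖ ^ 2 := by
        refine Finset.sum_le_sum fun a ha => ?_
        obtain ⟨e, he, rfl⟩ := Finset.mem_image.1 ha
        rw [h1 e he]
        have := hf e he
        nlinarith
    _ ≤ _ := Finset.sum_le_sum_of_subset_of_nonneg h2 fun _ _ _ => by positivity

theorem std_vol [NeZero N] {C : Finset F} (hC : IsReps X x C) :
    ((C.card : ℝ) ^ ((N : ℝ) - 1)) ≤ (std X (N := N) x C hC.surj).vol := by
  obtain ⟨p, hp⟩ := X.surj x (WithZero.exp (-1 : ℤ))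
  have hN : 0 < N := Nat.pos_of_ne_zero (NeZero.ne N)
  have h1 := vol_ge_card (std X (N := N) x C hC.surj) (vecs C (fun i : Fin N => (0 : Fin N) < i))
    (fun c => toG (rowMat p 0 c)) (fun c hc => by
      rw [std_h C hC.surj (indexOne_row hC hc hp 0)]
      simp) (fun c hc d hd hk => by
      rw [mem_K'] at hk
      refine row_inj hC hc hd hp hk.1 ?_
      have e := congrArg mat (mul_inv_cancel_left (toG (rowMat p 0 c)) (toG (rowMat p 0 d)))
      rw [mat_mul, mat_row hp 0 c, mat_row hp 0 d] at e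
      exact e.symm)
  rw [card_vecs, card_gt] at h1
  refine le_trans (le_of_eq ?_) h1
  rw [Nat.cast_pow, ← Real.rpow_natCast]
  congr 1
  rw [Fin.val_zero, Nat.sub_zero, Nat.cast_sub hN]
  push_cast
  rfl

theorem std_norm [NeZero N] {C : Finset F} (hC : IsReps X x C) :
    ((std X (N := N) x C hC.surj).norm : ℝ) ^ 2 ≤ (N : ℝ) ^ 2 * (std X (N := N) x C hC.surj).vol := by
  have h1 : ((std X (N := N) x C hC.surj).norm : ℝ) ≤ N * (C.card : ℝ) ^ (((N : ℝ) - 1) / 2) :=
    norm_le_of_local (std_local C hC.surj)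
  have hQ0 : (0 : ℝ) < C.card := by
    obtain ⟨c, hc, _⟩ := hC.surj 0 (by simp)
    exact_mod_cast Finset.card_pos.2 ⟨c, hc⟩
  have e2 : (C.card : ℝ) ^ ((N : ℝ) - 1) = ((C.card : ℝ) ^ (((N : ℝ) - 1) / 2)) ^ 2 := by
    rw [pow_two, ← Real.rpow_add hQ0]
    congr 1
    ring
  calc ((std X (N := N) x C hC.surj).norm : ℝ) ^ 2
      ≤ (N * (C.card : ℝ) ^ (((N : ℝ) - 1) / 2)) ^ 2 := pow_le_pow_left₀ (NNReal.coe_nonneg _) h1 2
    _ = (N : ℝ) ^ 2 * (C.card : ℝ) ^ ((N : ℝ) - 1) := by rw [mul_pow, e2]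
    _ ≤ _ := mul_le_mul_of_nonneg_left (std_vol hC) (by positivity)

/-- The test family of GL_N, with constant N². -/
theorem std_test [NeZero N] (C : X.V → Finset F) (hC : ∀ x, IsReps X x (C x)) (B : Finset X.V)
    (D : ℕ) (hD : ∀ x ∈ B, X.deg x ≤ D) :
    TestFamily B (fun x => std X (N := N) x (C x) (hC x).surj) ((N : ℝ) ^ 2) D where
  vol_pos x _ := by
    refine lt_of_lt_of_le ?_ (std_vol (hC x))
    have hQ0 : (0 : ℝ) < (C x).card := by
      obtain ⟨c, hc, _⟩ := (hC x).surj 0 (by simp)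
      exact_mod_cast Finset.card_pos.2 ⟨c, hc⟩
    positivity
  norm_le x _ := std_norm (hC x)
  size_le x hx := by
    have h1 : (std X (N := N) x (C x) (hC x).surj).rad ≤ 1 :=
      rad_le_of _ 1 fun g hg => size_indexOne (std_h' _ _ hg)
    calc X.deg x * (std X (N := N) x (C x) (hC x).surj).rad ≤ X.deg x * 1 :=
          Nat.mul_le_mul_left _ h1
      _ ≤ D := by rw [mul_one]; exact hD x hx

end Pool.Agent.Helper99.SCH
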