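import Pool.Agent.Helper99.SCH.Schur

/-! The weight and the bound N q^((N-1)/2). -/

open Matrix
open scoped NNReal

namespace Pool.Agent.Helper99.SCH

open Pool.Agent.Helper80.AT

variable {F : Type} [Field F] {X : Places F} {N : ℕ} {x : X.V}

/-- an upper triangular representative of a coset -/
lemma exists_up (a : Full F N ⧸ X.K (Full F N) x) :
    ∃ b : Full F N, Up (mat b) ∧ (b : Full F N ⧸ X.K (Full F N) x) = a := by
  obtain ⟨k, hk, hu⟩ := iwasawa (v := X.val x) (mat a.out)
  have hk0 : k.det ≠ 0 := by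
    intro h
    have := hk.2
    rw [h, map_zero] at this
    exact zero_ne_one this
  have hkK : toG k ∈ X.K (Full F N) x := by
    rw [mem_K', mat_toG hk0]
    exact hk
  refine ⟨a.out * toG k, ?_, ?_⟩
  · rw [mat_mul, mat_toG hk0]
    exact hu
  · rw [QuotientGroup.mk_mul_of_mem _ hkK]
    exact QuotientGroup.out_eq' a

/-- the upper triangular representative -/
noncomputable def rp (a : Full F N ⧸ X.K (Full F N) x) : Full F N := (exists_up a).choose

lemma rp_up (a : Full F N ⧸ X.K (Full F N) x) : Up (mat (rp a)) := (exists_up a).choose_spec.1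

lemma rp_mk (a : Full F N ⧸ X.K (Full F N) x) :
    (rp a : Full F N ⧸ X.K (Full F N) x) = a := (exists_up a).choose_spec.2

/-- the exponents -/
noncomputable def ex (N : ℕ) (i : Fin N) : ℝ := ((N : ℝ) - 1) / 2 - i

/-- the weight of an upper triangular matrix -/
noncomputable def wt (x : X.V) (Q : ℝ) (M : Matrix (Fin N) (Fin N) F) : ℝ :=
  ∏ i, Q ^ (ex N i * ((WithZero.log (X.val x (M i i)) : ℤ) : ℝ))

/-- the weight of a coset -/
noncomputable def phi (Q : ℝ) (a : Full F N ⧸ X.K (Full F N) x) : ℝ := wt x Q (mat (rp a))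

lemma wt_pos {Q : ℝ} (hQ : 0 < Q) (M : Matrix (Fin N) (Fin N) F) : 0 < wt x Q M :=
  Finset.prod_pos fun _ _ => Real.rpow_pos_of_pos hQ _

lemma phi_mk (Q : ℝ) {b : Full F N} (hb : Up (mat b)) :
    phi Q (b : Full F N ⧸ X.K (Full F N) x) = wt x Q (mat b) := by
  unfold phi wt
  refine Finset.prod_congr rfl fun i _ => ?_
  have h1 := rp_mk (b : Full F N ⧸ X.K (Full F N) x)
  have h2 : (rp (b : Full F N ⧸ X.K (Full F N) x))⁻¹ * b ∈ X.K (Full F N) x :=
    QuotientGroup.eq.1 h1
  set r := rp (b : Full F N ⧸ X.K (Full F N) x) with hr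
  have h3 : r * (r⁻¹ * b) = b := mul_inv_cancel_left _ _
  have h4 := diag_unique (v := X.val x) (b := (r : GL (Fin N) F))
    (k := ((r⁻¹ * b : Full F N) : GL (Fin N) F)) (rp_up _) ((mem_K' X x).1 h2) (by
      have e : (r : GL (Fin N) F) * ((r⁻¹ * b : Full F N) : GL (Fin N) F) = (b : GL (Fin N) F) := by
        rw [← Subgroup.coe_mul, h3]
      rw [e]
      exact hb) i
  have e : (r : GL (Fin N) F) * ((r⁻¹ * b : Full F N) : GL (Fin N) F) = (b : GL (Fin N) F) := by
    rw [← Subgroup.coe_mul, h3]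
  rw [e] at h4
  have h5 : X.val x (mat b i i) = X.val x (mat r i i) := h4
  rw [h5]

lemma wt_mul {Q : ℝ} (hQ : 0 < Q) {b u : Full F N} (hb : Up (mat b)) (hu : Up (mat u)) :
    wt x Q (mat (b * u)) = wt x Q (mat b) * wt x Q (mat u) := by
  unfold wt
  rw [← Finset.prod_mul_distrib]
  refine Finset.prod_congr rfl fun i _ => ?_
  rw [← Real.rpow_add hQ, ← mul_add, mat_mul, hb.diag_mul hu, map_mul]
  have h1 : X.val x (mat b i i) ≠ 0 := (X.val x).ne_zero_iff.2 (Up.diag_ne (g := (b : GL (Fin N) F)) hb i)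
  have h2 : X.val x (mat u i i) ≠ 0 := (X.val x).ne_zero_iff.2 (Up.diag_ne (g := (u : GL (Fin N) F)) hu i)
  rw [WithZero.log_mul h1 h2]
  push_cast
  rfl

lemma wt_diag (Q : ℝ) {p : F} (hp : X.val x p = WithZero.exp (-1 : ℤ)) (j : Fin N)
    {M : Matrix (Fin N) (Fin N) F} (hM : ∀ i, M i i = if i = j then p else 1) :
    wt x Q M = Q ^ (-ex N j) := by
  unfold wt
  rw [Finset.prod_eq_single j]
  · rw [hM, if_pos rfl, hp, WithZero.log_exp]
    congr 1
    push_cast
    ring
  · intro i _ hi
    rw [hM, if_neg hi, map_one, WithZero.log_one, Int.cast_zero, mul_zero, Real.rpow_zero]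
  · intro h
    exact absurd (Finset.mem_univ j) h

lemma wt_inv {Q : ℝ} (hQ : 0 < Q) {u : Full F N} (hu : Up (mat u)) :
    wt x Q (mat u⁻¹) = (wt x Q (mat u))⁻¹ := by
  have h1 : Up (mat u⁻¹) := Up.inv (g := (u : GL (Fin N) F)) hu
  have h2 := wt_mul (x := x) hQ hu h1
  rw [mul_inv_cancel] at h2
  have h3 : wt x Q (mat (1 : Full F N)) = 1 := by
    unfold wt
    refine Finset.prod_eq_one fun i _ => ?_
    have : mat (1 : Full F N) i i = 1 := Matrix.one_apply_eq i
    rw [this, map_one, WithZero.log_one, Int.cast_zero, mul_zero, Real.rpow_zero]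
  rw [h3] at h2
  exact eq_inv_of_mul_eq_one_right h2.symm

/-- a sum over a set covered by the image of a finite index set -/
lemma sum_cover {A I : Type} (T : Finset A) (E : Finset I) (f : I → A) (ψ : A → ℝ)
    (hψ : ∀ a, 0 ≤ ψ a) (hT : ∀ a ∈ T, ∃ e ∈ E, f e = a) :
    ∑ a ∈ T, ψ a ≤ ∑ e ∈ E, ψ (f e) := by
  classical
  have h1 : T ⊆ E.image f := by
    intro a ha
    obtain ⟨e, he, h⟩ := hT a ha
    exact Finset.mem_image.2 ⟨e, he, h⟩
  refine (Finset.sum_le_sum_of_subset_of_nonneg h1 fun a _ _ => hψ a).trans ?_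
  rw [← Finset.sum_fiberwise_of_maps_to (g := f) (t := E.image f)
    (fun e he => Finset.mem_image_of_mem f he)]
  refine Finset.sum_le_sum fun a ha => ?_
  obtain ⟨e, he, h⟩ := Finset.mem_image.1 ha
  rw [Finset.sum_congr rfl (g := fun _ => ψ a) (fun e he => by
    rw [(Finset.mem_filter.1 he).2])]
  rw [Finset.sum_const, nsmul_eq_mul]
  have h2 : (1 : ℝ) ≤ ((E.filter fun e => f e = a).card : ℝ) := by
    exact_mod_cast Finset.card_pos.2 ⟨e, Finset.mem_filter.2 ⟨he, h⟩⟩
  nlinarith [hψ a]

lemma card_gt (j : Fin N) : (Finset.univ.filter fun i : Fin N => j < i).card = N - 1 - j := by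
  have : (Finset.univ.filter fun i : Fin N => j < i) = Finset.Ioi j := by
    ext i
    simp
  rw [this, Fin.card_Ioi]

lemma card_lt (j : Fin N) : (Finset.univ.filter fun i : Fin N => i < j).card = j := by
  have : (Finset.univ.filter fun i : Fin N => i < j) = Finset.Iio j := by
    ext i
    simp
  rw [this, Fin.card_Iio]

/-- The operator norm of the Hecke operator of the sublattices of index q. -/
theorem std_local [NeZero N] (C : Finset F)
    (hC : ∀ f, X.val x f ≤ 1 → ∃ c ∈ C, X.val x (f - c) < 1) :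
    LocalNormLe (std X (N := N) x C hC)
      ⟨N * (C.card : ℝ) ^ (((N : ℝ) - 1) / 2), by positivity⟩ := by
  classical
  obtain ⟨p, hp⟩ := X.surj x (WithZero.exp (-1 : ℤ))
  set Q : ℝ := (C.card : ℝ) with hQ
  have hQ0 : 0 < Q := by
    obtain ⟨c, hc, _⟩ := hC 0 (by simp)
    have : 0 < C.card := Finset.card_pos.2 ⟨c, hc⟩
    rw [hQ]
    exact_mod_cast this
  have hφ : ∀ a : Full F N ⧸ X.K (Full F N) x, 0 < phi Q a := fun a => wt_pos hQ0 _
  have hnorm : ∀ g : Full F N, ‖(std X (N := N) x C hC).h g‖ = if IndexOne X x (mat g) then 1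
      else 0 := by
    intro g
    show ‖(if IndexOne X x (mat g) then (1 : ℂ) else 0)‖ = _
    split_ifs <;> simp
  refine schur _ (phi Q) hφ _ ?_ ?_
  · intro a T
    have e1 : ∀ b : Full F N ⧸ X.K (Full F N) x, (std X (N := N) x C hC).h (a.out⁻¹ * b.out) =
        (std X (N := N) x C hC).h ((rp a)⁻¹ * b.out) := by
      intro b
      have := h_mk (std X (N := N) x C hC) (rp a) b.out
      rw [rp_mk, QuotientGroup.out_eq'] at this
      exact this
    simp only [e1, hnorm, ite_mul, one_mul, zero_mul]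
    rw [← Finset.sum_filter]
    refine (sum_cover _ (Finset.univ.sigma fun j : Fin N => vecs C (fun i => j < i))
      (fun e => ((rp a * toG (rowMat p e.1 e.2) : Full F N) : Full F N ⧸ X.K (Full F N) x))
      (phi Q) (fun b => (hφ b).le) ?_).trans ?_
    · intro b hb
      obtain ⟨j, c, hc, k, hk, e⟩ := row_coset hC hp (Finset.mem_filter.1 hb).2
      refine ⟨⟨j, c⟩, Finset.mem_sigma.2 ⟨Finset.mem_univ _, hc⟩, ?_⟩
      have h1 : ((b.out : Full F N) : Full F N ⧸ X.K (Full F N) x) = b := QuotientGroup.out_eq' b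
      refine Eq.trans ?_ h1
      have e2 : b.out = rp a * toG (rowMat p j c) * k := by
        rw [mul_assoc, ← e]
        group
      rw [e2]
      exact (QuotientGroup.mk_mul_of_mem _ hk).symm
    · rw [Finset.sum_sigma]
      have e3 : ∀ j : Fin N, ∀ c ∈ vecs C (fun i => j < i),
          phi Q ((rp a * toG (rowMat p j c) : Full F N) : Full F N ⧸ X.K (Full F N) x) =
            phi Q a * Q ^ (-ex N j) := by
        intro j c hc
        have hu : Up (mat (toG (rowMat p j c))) := by
          rw [mat_row hp]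
          exact up_rowMat p j hc
        rw [phi_mk Q (by rw [mat_mul]; exact (rp_up a).mul hu), wt_mul hQ0 (rp_up a) hu, mat_row hp,
          wt_diag Q hp j (diag_rowMat p j c)]
        rfl
      rw [Finset.sum_congr rfl fun j _ => Finset.sum_congr rfl (e3 j)]
      simp only [Finset.sum_const, nsmul_eq_mul, card_vecs, card_gt]
      refine le_of_eq ?_
      have e4 : ∀ j : Fin N, ((C.card ^ (N - 1 - (j : ℕ)) : ℕ) : ℝ) * (phi Q a * Q ^ (-ex N j)) =
          Q ^ (((N : ℝ) - 1) / 2) * phi Q a := by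
        intro j
        have hj := j.2
        rw [Nat.cast_pow, ← hQ, ← Real.rpow_natCast, mul_left_comm, ← Real.rpow_add hQ0, mul_comm]
        congr 2
        unfold ex
        rw [Nat.cast_sub (by omega), Nat.cast_sub (by omega)]
        push_cast
        ring
      rw [Finset.sum_congr rfl fun j _ => e4 j, Finset.sum_const, Finset.card_univ, Fintype.card_fin,
        nsmul_eq_mul, ← mul_assoc]
      rfl
  · intro b S
    have e1 : ∀ a : Full F N ⧸ X.K (Full F N) x, (std X (N := N) x C hC).h (a.out⁻¹ * b.out) =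
        (std X (N := N) x C hC).h (a.out⁻¹ * rp b) := by
      intro a
      have := h_mk (std X (N := N) x C hC) a.out (rp b)
      rw [rp_mk, QuotientGroup.out_eq'] at this
      exact this
    simp only [e1, hnorm, ite_mul, one_mul, zero_mul]
    rw [← Finset.sum_filter]
    refine (sum_cover _ (Finset.univ.sigma fun j : Fin N => vecs C (fun i => i < j))
      (fun e => ((rp b * (toG (colMat p e.1 e.2))⁻¹ : Full F N) : Full F N ⧸ X.K (Full F N) x))
      (phi Q) (fun b => (hφ b).le) ?_).trans ?_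
    · intro a ha
      obtain ⟨j, c, hc, k, hk, e⟩ := col_coset hC hp (Finset.mem_filter.1 ha).2
      refine ⟨⟨j, c⟩, Finset.mem_sigma.2 ⟨Finset.mem_univ _, hc⟩, ?_⟩
      have h1 : ((a.out : Full F N) : Full F N ⧸ X.K (Full F N) x) = a := QuotientGroup.out_eq' a
      refine Eq.trans ?_ h1
      have e2 : a.out = rp b * (toG (colMat p j c))⁻¹ * k⁻¹ := by
        have e3 : rp b = a.out * (k * toG (colMat p j c)) := by
          rw [← e]
          group
        rw [e3]
        group
      rw [e2]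
      exact (QuotientGroup.mk_mul_of_mem _ (inv_mem hk)).symm
    · rw [Finset.sum_sigma]
      have e3 : ∀ j : Fin N, ∀ c ∈ vecs C (fun i => i < j),
          phi Q ((rp b * (toG (colMat p j c))⁻¹ : Full F N) : Full F N ⧸ X.K (Full F N) x) =
            phi Q b * Q ^ (ex N j) := by
        intro j c hc
        have hu : Up (mat (toG (colMat p j c))) := by
          rw [mat_col hp]
          exact up_colMat p j hc
        have hui : Up (mat (toG (colMat p j c))⁻¹) :=
          Up.inv (g := ((toG (colMat p j c) : Full F N) : GL (Fin N) F)) hu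
        rw [phi_mk Q (by rw [mat_mul]; exact (rp_up b).mul hui), wt_mul hQ0 (rp_up b) hui,
          wt_inv hQ0 hu, mat_col hp, wt_diag Q hp j (diag_colMat p j c), Real.rpow_neg hQ0.le,
          inv_inv]
        rfl
      rw [Finset.sum_congr rfl fun j _ => Finset.sum_congr rfl (e3 j)]
      simp only [Finset.sum_const, nsmul_eq_mul, card_vecs, card_lt]
      refine le_of_eq ?_
      have e4 : ∀ j : Fin N, ((C.card ^ (j : ℕ) : ℕ) : ℝ) * (phi Q b * Q ^ (ex N j)) =
          Q ^ (((N : ℝ) - 1) / 2) * phi Q b := by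
        intro j
        rw [Nat.cast_pow, ← hQ, ← Real.rpow_natCast, mul_left_comm, ← Real.rpow_add hQ0, mul_comm]
        congr 2
        unfold ex
        ring
      rw [Finset.sum_congr rfl fun j _ => e4 j, Finset.sum_const, Finset.card_univ, Fintype.card_fin,
        nsmul_eq_mul, ← mul_assoc]
      rfl

end Pool.Agent.Helper99.SCH
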